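import Mathlib

/-!
# The matroid of algebraic independence: counting
-/

set_option autoImplicit false

open Set

namespace Pool.Agent.N902.EW

section

variable (F : Type*) {E : Type*} [Field F] [Field E] [Algebra F E]

/-- the matroid of algebraic independence -/
noncomputable abbrev Ma : Matroid E := AlgebraicIndependent.matroid F E

variable {F}

lemma mem_cl {S : Set E} {x : E} : x ∈ (Ma F).closure S ↔ IsAlgebraic (Algebra.adjoin F S) x := by
  rw [AlgebraicIndependent.matroid_closure_eq]
  exact Iff.rfl

lemma mem_cl' {S : Set E} {x : E} : x ∈ (Ma F).closure S ↔ IsAlgebraic (IntermediateField.adjoin F S) x := by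
  rw [mem_cl]
  exact (IntermediateField.isAlgebraic_adjoin_iff (F := F) (E := E) (s := S) (x := x)).symm

variable (F)

/-- the closure as a subfield -/
noncomputable def clf (S : Set E) : Subfield E where
  carrier := (Ma F).closure S
  mul_mem' := fun ha hb => mem_cl.2 ((mem_cl.1 ha).mul (mem_cl.1 hb))
  one_mem' := mem_cl.2 isAlgebraic_one
  add_mem' := fun ha hb => mem_cl.2 ((mem_cl.1 ha).add (mem_cl.1 hb))
  zero_mem' := mem_cl.2 isAlgebraic_zero
  neg_mem' := fun ha => mem_cl.2 (mem_cl.1 ha).neg
  inv_mem' := fun _ ha => mem_cl.2 (mem_cl.1 ha).inv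

variable {F}

lemma mem_clf {S : Set E} {x : E} : x ∈ clf F S ↔ IsAlgebraic (IntermediateField.adjoin F S) x := mem_cl'

lemma mem_clf' {S : Set E} {x : E} : x ∈ clf F S ↔ x ∈ (Ma F).closure S := Iff.rfl

lemma subset_clf (S : Set E) : S ⊆ clf F S := Matroid.subset_closure (Ma F) S (subset_univ _)

lemma clf_mono {S T : Set E} (h : S ⊆ T) : clf F S ≤ clf F T := Matroid.closure_subset_closure (Ma F) h

lemma clf_le {S T : Set E} (h : S ⊆ clf F T) : clf F S ≤ clf F T :=
  Matroid.closure_subset_closure_of_subset_closure h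

lemma clf_of_alg {S : Set E} {x : E} (h : IsAlgebraic F x) : x ∈ clf F S :=
  mem_clf.2 (h.extendScalars (FaithfulSMul.algebraMap_injective F (IntermediateField.adjoin F S)))

lemma clf_pow {S : Set E} {x : E} {n : ℕ} (hn : n ≠ 0) (h : x ^ n ∈ clf F S) : x ∈ clf F S :=
  mem_cl.2 (IsAlgebraic.of_pow (Nat.pos_of_ne_zero hn) (mem_cl.1 h))

lemma card_le_eRk {ι : Type*} [Fintype ι] {x : ι → E} (hx : AlgebraicIndependent F x) {T : Set E}
    (h : ∀ i, x i ∈ clf F T) : (Fintype.card ι : ℕ∞) ≤ (Ma F).eRk T := by
  have h1 : (Ma F).Indep (range x) := hx.to_subtype_range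
  have h2 : range x ⊆ (Ma F).closure T := by
    rintro _ ⟨i, rfl⟩
    exact h i
  calc (Fintype.card ι : ℕ∞) = (range x).encard := by
        rw [← image_univ, hx.injective.injOn.encard_image, encard_univ, ENat.card_eq_coe_fintype_card]
    _ ≤ (Ma F).eRk ((Ma F).closure T) := h1.encard_le_eRk_of_subset h2
    _ = (Ma F).eRk T := Matroid.eRk_closure_eq (Ma F) T

lemma encard_le_of_fin {α : Type*} (s : Set α) (n : ℕ) (h : ∀ t : Finset α, (t : Set α) ⊆ s → t.card ≤ n) :
    s.encard ≤ n := by
  by_contra hcon
  push Not at hcon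
  have h1 : ((n + 1 : ℕ) : ℕ∞) ≤ s.encard := by
    have := Order.add_one_le_of_lt hcon
    exact_mod_cast this
  obtain ⟨t, hts, htc⟩ := exists_subset_encard_eq h1
  have hfin : t.Finite := by
    rw [← encard_lt_top_iff, htc]
    exact ENat.natCast_lt_top _
  have h2 := h hfin.toFinset (by simpa using hts)
  have h3 : ((hfin.toFinset.card : ℕ) : ℕ∞) = ((n + 1 : ℕ) : ℕ∞) := by
    rw [← htc, ← encard_coe_eq_coe_finsetCard, hfin.coe_toFinset]
  have h4 : hfin.toFinset.card = n + 1 := by exact_mod_cast h3
  omega

/-- counting: at most `r` of the elements `y_j` and `t_i` are algebraic over the base field -/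
theorem count_le {r : ℕ} {ι : Type*} {s : ι → E} (hs : AlgebraicIndependent F s) (y : Fin r → E) (t : ι → E)
    (h : ∀ i, s i ∈ clf F (insert (t i) (range y))) :
    {n : Fin r ⊕ ι | Sum.elim (fun j => IsAlgebraic F (y j)) (fun i => IsAlgebraic F (t i)) n}.encard ≤ (r : ℕ∞) := by
  classical
  refine encard_le_of_fin _ _ fun T hT => ?_
  let a : Finset (Fin r) := Finset.univ.filter fun j => Sum.inl j ∈ T
  let b : Finset ι := T.biUnion fun n => Sum.elim (fun _ => ∅) (fun i => {i}) n
  have hb : ∀ i, i ∈ b ↔ Sum.inr i ∈ T := by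
    intro i
    simp only [b, Finset.mem_biUnion]
    constructor
    · rintro ⟨n, hn, hi⟩
      rcases n with j | k
      · simp at hi
      · simp at hi; rw [hi]; exact hn
    · intro hi; exact ⟨_, hi, by simp⟩
  have hT2 : T.card ≤ a.card + b.card := by
    have h1 : T ⊆ a.image Sum.inl ∪ b.image Sum.inr := by
      intro n hn
      rw [Finset.mem_union, Finset.mem_image, Finset.mem_image]
      rcases n with j | i
      · left; exact ⟨j, by simp [a, hn], rfl⟩
      · right; exact ⟨i, (hb i).2 hn, rfl⟩
    refine (Finset.card_le_card h1).trans ((Finset.card_union_le _ _).trans ?_)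
    exact Nat.add_le_add Finset.card_image_le Finset.card_image_le
  have hsub : ∀ i : b, s i ∈ clf F (y '' ((aᶜ : Finset (Fin r)) : Set (Fin r))) := by
    intro i
    refine clf_le (S := insert (t i) (range y)) ?_ (h i)
    rintro z (rfl | ⟨j, rfl⟩)
    · exact clf_of_alg (hT ((hb i).1 i.2))
    · by_cases hj : j ∈ a
      · have : Sum.inl j ∈ T := by simpa [a] using hj
        exact clf_of_alg (hT this)
      · exact subset_clf _ ⟨j, by simpa using hj, rfl⟩
  have hcard := card_le_eRk (hs.comp (Subtype.val : b → ι) Subtype.val_injective) hsub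
  have h2 : (Ma F).eRk (y '' ((aᶜ : Finset (Fin r)) : Set (Fin r))) ≤ ((aᶜ : Finset (Fin r)).card : ℕ∞) := by
    refine (Matroid.eRk_le_encard _ _).trans ((encard_image_le _ _).trans ?_)
    rw [encard_coe_eq_coe_finsetCard]
  have h3 : b.card ≤ (aᶜ : Finset (Fin r)).card := by
    have := hcard.trans h2
    rw [Fintype.card_coe] at this
    exact_mod_cast this
  rw [Finset.card_compl, Fintype.card_fin] at h3
  have h4 : a.card ≤ r := by
    have := Finset.card_le_univ a
    rwa [Fintype.card_fin] at this
  omega

lemma ai_sub (K : IntermediateField F E) {ι : Type*} (f : ι → K)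
    (h : AlgebraicIndependent F (fun i => (f i : E))) : AlgebraicIndependent F f :=
  (K.val.algebraicIndependent_iff K.val.injective).1 h

/-- a lower bound for the transcendence degree of a generated field -/
lemma trdeg_ge {ι : Type*} [Fintype ι] {x : ι → E} (hx : AlgebraicIndependent F x) {A : Set E} (h : ∀ i, x i ∈ clf F A) :
    (Fintype.card ι : Cardinal) ≤ Algebra.trdeg F (IntermediateField.adjoin F A) := by
  obtain ⟨I, hI⟩ := (Ma F).exists_isBasis A (subset_univ _)
  have h1 := card_le_eRk hx h
  rw [← hI.encard_eq_eRk] at h1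
  obtain ⟨t, htI, htc⟩ := exists_subset_encard_eq h1
  have hfin : t.Finite := by
    rw [← encard_lt_top_iff, htc]
    exact ENat.natCast_lt_top _
  have hind : AlgebraicIndependent F (fun i : t => (i : E)) := hI.indep.subset htI
  have htA : ∀ i : t, (i : E) ∈ IntermediateField.adjoin F A := fun i =>
    IntermediateField.subset_adjoin F A (hI.subset (htI i.2))
  let f : t → IntermediateField.adjoin F A := fun i => ⟨i, htA i⟩
  have hf : AlgebraicIndependent F f := ai_sub (IntermediateField.adjoin F A) f hind
  have := hfin.fintype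
  have h2 := hf.cardinalMk_le_trdeg
  have h3 : ((Fintype.card ι : ℕ) : ℕ∞) = ((Fintype.card t : ℕ) : ℕ∞) := by
    rw [← htc, ← ENat.card_eq_coe_fintype_card, Set.encard]
  have h4 : Fintype.card ι = Fintype.card t := by exact_mod_cast h3
  rw [h4, ← Cardinal.mk_fintype]
  exact_mod_cast h2

/-- the elements `t_i` are algebraically independent if the independent elements are algebraic over them -/
theorem ai_of_span {ι : Type*} {s : ι → E} (hs : AlgebraicIndependent F s) (t : ι → E)
    (h : ∀ i, s i ∈ clf F {t i}) : AlgebraicIndependent F t := by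
  classical
  refine algebraicIndependent_of_finite_type fun T hT => ?_
  have := hT.fintype
  have hx := hs.comp (Subtype.val : T → ι) Subtype.val_injective
  have h0 : ∀ i : T, s i ∈ clf F (range fun i : T => t i) := fun i => by
    have h5 : {t i} ⊆ range fun i : T => t i := by
      rintro z rfl
      exact ⟨i, rfl⟩
    exact clf_mono h5 (h i)
  have h1 := card_le_eRk hx h0
  have h2 : (range fun i : T => t i).encard ≤ Fintype.card T := by
    rw [← image_univ, ← ENat.card_eq_coe_fintype_card, ← encard_univ]
    exact encard_image_le _ _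
  have h3 : (Fintype.card T : ℕ∞) ≤ (range fun i : T => t i).encard := h1.trans (Matroid.eRk_le_encard _ _)
  have hfin : (range fun i : T => t i).Finite := finite_range _
  have h4 : (Ma F).Indep (range fun i : T => t i) := by
    refine ((Ma F).isRkFinite_of_finite hfin).indep_of_encard_le_eRk ?_
    exact h2.trans h1
  have hinj : Function.Injective fun i : T => t i := by
    rw [← injOn_univ]
    refine Finite.injOn_of_encard_image_eq finite_univ ?_
    rw [image_univ]
    refine le_antisymm (h2.trans ?_) ?_
    · rw [encard_univ, ENat.card_eq_coe_fintype_card]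
    · rw [encard_univ, ENat.card_eq_coe_fintype_card]; exact h3
  exact (algebraicIndependent_subtype_range hinj).1 h4

end

end Pool.Agent.N902.EW
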