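import Pool.Agent.H18.L.N902.EW.Dec
import Pool.Agent.H18.L.R352.E.Sys

/-!
# Galois descent: the value at `1` of a nonzero element of the algebra is not zero
-/

set_option autoImplicit false
set_option linter.unusedSectionVars false

open PowerSeries

namespace Pool.Agent.N902.EW

open Pool.Agent.Y113 Pool.Agent.R352.E

section

variable {K : Type*} [Field K] [NumberField K]

/-- coefficients in `ℚ` -/
noncomputable abbrev bc (K : Type*) [Field K] [NumberField K] : ℚ⟦X⟧ →+* K⟦X⟧ := PowerSeries.map (algebraMap ℚ K)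

lemma bc_injective : Function.Injective (bc K) := PowerSeries.map_injective _ (algebraMap ℚ K).injective

lemma bc_smul (q : ℚ) (f : ℚ⟦X⟧) : bc K (q • f) = (algebraMap ℚ K q) • bc K f := by
  ext n; simp

lemma evk_bc (φ : K →+* ℂ) (f : ℚ⟦X⟧) : evk φ (bc K f) = ((ev 1 f : ℝ) : ℂ) := by
  rw [evk, ev, Complex.ofReal_tsum]
  refine tsum_congr fun m => ?_
  rw [coeff_map]
  simp

lemma EF_of_bc {φ : K →+* ℂ} {f : ℚ⟦X⟧} (hf : EFK φ (bc K f)) : EF f := by
  obtain ⟨C, hC, h1, h2⟩ := hf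
  have hck : ∀ m, ck m (bc K f) = algebraMap ℚ K (cf m f) := by
    intro m; rw [ck, coeff_map, cf, map_mul, map_natCast]
  refine ⟨C, hC, fun m => ?_, fun m => ?_⟩
  · have := h1 m
    rw [hck] at this
    simp only [eq_ratCast, map_ratCast] at this
    rwa [← Complex.ofReal_ratCast, Complex.norm_real, Real.norm_eq_abs] at this
  · obtain ⟨d, hd, hdC, hi⟩ := h2 m
    refine ⟨d, hd, hdC, fun j hj => ?_⟩
    have h3 := hi j hj
    rw [hck, ← map_natCast (algebraMap ℚ K) d, ← map_mul,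
      isIntegral_algebraMap_iff (algebraMap ℚ K).injective] at h3
    obtain ⟨a, ha⟩ := IsIntegrallyClosed.isIntegral_iff.1 h3
    exact ⟨a, by rw [← ha]; simp⟩

/-- the rational power series in the span -/
noncomputable def W0 (I : Finset (K × List K)) : Submodule ℚ ℚ⟦X⟧ where
  carrier := {f | bc K f ∈ VI I}
  add_mem' := by
    intro f g hf hg
    show bc K (f + g) ∈ VI I
    rw [map_add]; exact Submodule.add_mem _ hf hg
  zero_mem' := by
    show bc K 0 ∈ VI I
    rw [map_zero]; exact Submodule.zero_mem _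
  smul_mem' := by
    intro q f hf
    show bc K (q • f) ∈ VI I
    rw [bc_smul]; exact Submodule.smul_mem _ _ hf

lemma mem_W0 {I : Finset (K × List K)} {f : ℚ⟦X⟧} : f ∈ W0 I ↔ bc K f ∈ VI I := Iff.rfl

lemma fin_W0 (I : Finset (K × List K)) : Module.Finite ℚ (W0 I) := by
  have h1 : Module.Finite K (VI I) :=
    Module.Finite.iff_fg.2 (Submodule.fg_span (I.finite_toSet.image bf))
  have h2 : Module.Finite ℚ (VI I) := Module.Finite.trans K (VI I)
  let F : W0 I →ₗ[ℚ] VI I :=
    { toFun := fun f => ⟨bc K f.1, f.2⟩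
      map_add' := fun f g => Subtype.ext (map_add (bc K) f.1 g.1)
      map_smul' := fun q f => Subtype.ext (by
        show bc K (q • f.1) = q • bc K f.1
        ext n
        rw [(PowerSeries.coeff (R := K) n).map_smul_of_tower q, coeff_map, coeff_map, coeff_smul, smul_eq_mul, map_mul,
          Algebra.smul_def]) }
  refine Module.Finite.of_injective F ?_
  intro f g h
  exact Subtype.ext (bc_injective (congrArg Subtype.val h))

variable [IsGalois ℚ K]

/-- the invariants -/
lemma exists_bc {g : K⟦X⟧} (h : ∀ σ : K ≃ₐ[ℚ] K, PowerSeries.map (σ : K →+* K) g = g) : ∃ f : ℚ⟦X⟧, bc K f = g := by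
  have h1 : ∀ n, coeff n g ∈ Set.range (algebraMap ℚ K) := by
    intro n
    rw [IsGalois.mem_range_algebraMap_iff_fixed]
    intro σ
    have := congrArg (coeff n) (h σ)
    rw [coeff_map] at this
    exact this
  choose c hc using h1
  refine ⟨PowerSeries.mk c, ?_⟩
  ext n
  rw [coeff_map, coeff_mk, hc]

lemma map_VI {I : Finset (K × List K)} (σ : K →+* K) (hσ : ∀ x ∈ I, mx σ x ∈ I) {f : K⟦X⟧} (hf : f ∈ VI I) :
    PowerSeries.map σ f ∈ VI I := by
  refine Submodule.span_induction (p := fun f _ => PowerSeries.map σ f ∈ VI I) ?_ ?_ ?_ ?_ hf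
  · rintro _ ⟨x, hx, rfl⟩
    rw [map_bf]
    exact Submodule.subset_span ⟨_, hσ x hx, rfl⟩
  · rw [map_zero]; exact Submodule.zero_mem _
  · intro x y _ _ hx hy; rw [map_add]; exact Submodule.add_mem _ hx hy
  · intro c x _ hx; rw [map_smul']; exact Submodule.smul_mem _ _ hx

/-- the derivative of a rational element of the span -/
lemma W0_th {I : Finset (K × List K)} (hI : Stb I) (hG : ∀ (σ : K ≃ₐ[ℚ] K), ∀ x ∈ I, mx (σ : K →+* K) x ∈ I)
    {f : ℚ⟦X⟧} (hf : f ∈ W0 I) : ∃ g ∈ W0 I, ∃ h ∈ W0 I, th f = g + X * h := by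
  obtain ⟨g, hg, h, hh, e⟩ := VI_th hI (mem_W0.1 hf)
  have hfix : ∀ σ : K ≃ₐ[ℚ] K, PowerSeries.map (σ : K →+* K) g = g ∧ PowerSeries.map (σ : K →+* K) h = h := by
    intro σ
    have h1 : PowerSeries.map (σ : K →+* K) (th (bc K f)) = th (bc K f) := by
      rw [map_th]
      congr 1
      ext n
      rw [coeff_map, coeff_map]
      exact σ.commutes _
    rw [e, map_add, map_mul, PowerSeries.map_X] at h1
    exact dec_unique (VI_le hI (map_VI _ (hG σ) hg)) (VI_le hI (map_VI _ (hG σ) hh)) (VI_le hI hg) (VI_le hI hh) h1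
  obtain ⟨g', rfl⟩ := exists_bc fun σ => (hfix σ).1
  obtain ⟨h', rfl⟩ := exists_bc fun σ => (hfix σ).2
  refine ⟨g', hg, h', hh, bc_injective (K := K) ?_⟩
  rw [map_th, e, map_add, map_mul, PowerSeries.map_X]

lemma exists_den {ι : Type*} [Fintype ι] (a : ι → ℚ) : ∃ q : ℕ, 1 ≤ q ∧ ∃ z : ι → ℤ, ∀ i, (z i : ℚ) = q * a i := by
  classical
  refine ⟨∏ i, (a i).den, Finset.prod_pos fun i _ => (a i).den_pos,
    fun i => (∏ j ∈ Finset.univ.erase i, ((a j).den : ℤ)) * (a i).num, fun i => ?_⟩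
  rw [← Finset.mul_prod_erase Finset.univ (fun i => (a i).den) (Finset.mem_univ i)]
  push_cast
  have h1 : ((a i).num : ℚ) = (a i).den * a i := (Rat.den_mul_eq_num _).symm
  rw [h1]
  ring

/-- an invariant element with value zero is zero -/
theorem inv_zero (φ : K →+* ℂ) {F : K⟦X⟧} (hF : F ∈ SA K)
    (hinv : ∀ σ : K ≃ₐ[ℚ] K, PowerSeries.map (σ : K →+* K) F = F) (h0 : evk φ F = 0) : F = 0 := by
  classical
  obtain ⟨f, rfl⟩ := exists_bc hinv
  let ρ : (K ≃ₐ[ℚ] K) →* (K ≃+* K) :=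
    { toFun := fun σ => σ.toRingEquiv
      map_one' := rfl
      map_mul' := fun _ _ => rfl }
  obtain ⟨I, hI, hFI, hG⟩ := exists_Stb ρ hF
  have hG' : ∀ (σ : K ≃ₐ[ℚ] K), ∀ x ∈ I, mx (σ : K →+* K) x ∈ I := fun σ x hx => hG σ x hx
  have hf : f ∈ W0 I := hFI
  have := fin_W0 I
  have h1mem : (1 : ℚ⟦X⟧) ∈ W0 I := by rw [mem_W0, map_one]; exact one_mem_VI hI
  set o : W0 I := ⟨1, h1mem⟩ with ho
  have ho0 : o ≠ 0 := fun h => one_ne_zero (congrArg Subtype.val h)
  have hs : LinearIndepOn ℚ id ({o} : Set (W0 I)) := LinearIndepOn.singleton ho0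
  let b := Module.Basis.extend hs
  have : Fintype (hs.extend (Set.subset_univ _)) := FiniteDimensional.fintypeBasisIndex b
  let e := Fintype.equivFin (hs.extend (Set.subset_univ _))
  let N := Fintype.card (hs.extend (Set.subset_univ _))
  let y : Fin N → ℚ⟦X⟧ := fun i => (b (e.symm i)).1
  let B := b.reindex e
  have hBy : ∀ i, (B i : W0 I).1 = y i := fun i => by simp only [B, y, Module.Basis.reindex_apply]
  have hrep : ∀ g ∈ W0 I, ∃ c : Fin N → ℚ, g = ∑ i, c i • y i := by
    intro g hg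
    refine ⟨fun i => B.repr ⟨g, hg⟩ i, ?_⟩
    have h1 : g = ((∑ i, B.repr ⟨g, hg⟩ i • B i : W0 I) : ℚ⟦X⟧) := by rw [B.sum_repr]
    conv_lhs => rw [h1]
    rw [Submodule.coe_sum]
    exact Finset.sum_congr rfl fun i _ => by rw [Submodule.coe_smul, hBy]
  have hLI0 : LinearIndependent ℚ y := by
    have h1 : LinearIndependent ℚ (fun i => (W0 I).subtype (B i)) :=
      B.linearIndependent.map' (W0 I).subtype (Submodule.ker_subtype _)
    have h2 : (fun i => (W0 I).subtype (B i)) = y := funext fun i => hBy i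
    rwa [h2] at h1
  have hymem : ∀ i, y i ∈ W0 I := fun i => (b (e.symm i)).2
  -- the element `1`
  let i₀ : Fin N := e ⟨o, (Module.Basis.subset_extend hs) (Set.mem_singleton o)⟩
  have hi₀ : y i₀ = 1 := by
    simp only [y, i₀, Equiv.symm_apply_apply, b]
    rw [Module.Basis.extend_apply_self]
  -- the functions are E-functions
  have hEF : ∀ i, EF (y i) := fun i => EF_of_bc (EFK.of_mem (φ := φ) (VI_le hI (mem_W0.1 (hymem i))))
  obtain ⟨C, hC, hsize, hden⟩ := EF.common hEF
  -- the differential system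
  have hder : ∀ i, ∃ a b : Fin N → ℚ, th (y i) = ∑ j, (a j • y j + X * (b j • y j)) := by
    intro i
    obtain ⟨g, hg, h, hh, e1⟩ := W0_th hI hG' (hymem i)
    obtain ⟨a, ha⟩ := hrep g hg
    obtain ⟨b, hb⟩ := hrep h hh
    refine ⟨a, b, ?_⟩
    rw [e1, ha, hb, Finset.mul_sum, ← Finset.sum_add_distrib]
  choose a₁ b₁ hab using hder
  obtain ⟨q, hq, z, hz⟩ := exists_den (fun p : (Fin N × Fin N) × Bool => if p.2 then a₁ p.1.1 p.1.2 else b₁ p.1.1 p.1.2)
  have hza : ∀ i j, (z ((i, j), true) : ℚ) = q * a₁ i j := fun i j => by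
    have := hz ((i, j), true); simpa using this
  have hzb : ∀ i j, (z ((i, j), false) : ℚ) = q * b₁ i j := fun i j => by
    have := hz ((i, j), false); simpa using this
  have hsys : ESys q C y := by
    refine ⟨hC, hq, hsize, hden, fun i j => Polynomial.C (z ((i, j), true)) + Polynomial.C (z ((i, j), false)) * Polynomial.X,
      fun i => ?_⟩
    have h1 : (TQ q : ℚ⟦X⟧) * d⁄dX ℚ (y i) = (q : ℚ⟦X⟧) * th (y i) := by
      rw [TQ_eq, th, mul_assoc]
    rw [h1, hab, Finset.mul_sum]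
    refine Finset.sum_congr rfl fun j _ => ?_
    have h2 : ps (Polynomial.C (z ((i, j), true)) + Polynomial.C (z ((i, j), false)) * Polynomial.X) =
        PowerSeries.C ((z ((i, j), true) : ℤ) : ℚ) + PowerSeries.C ((z ((i, j), false) : ℤ) : ℚ) * X := by
      rw [ps, Polynomial.map_add, Polynomial.map_mul, Polynomial.map_C, Polynomial.map_C, Polynomial.map_X,
        Polynomial.coe_add, Polynomial.coe_mul, Polynomial.coe_C, Polynomial.coe_C, Polynomial.coe_X]
      rfl
    rw [h2, hza, hzb, smul_eq_C_mul, smul_eq_C_mul, map_mul, map_mul]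
    have h3 : (PowerSeries.C (q : ℚ) : ℚ⟦X⟧) = (q : ℚ⟦X⟧) := by simp
    rw [h3]
    ring
  -- linear independence over the polynomials
  have hLI : LinearIndependent (Polynomial ℚ) y := by
    rw [Fintype.linearIndependent_iff]
    intro p hp i
    obtain ⟨m, hm⟩ : ∃ m : ℕ, ∀ i, (p i).natDegree < m := by
      refine ⟨(Finset.univ.sup fun i => (p i).natDegree) + 1, fun i => Nat.lt_succ_of_le ?_⟩
      exact Finset.le_sup (f := fun i => (p i).natDegree) (Finset.mem_univ i)
    have hexp : ∀ i, p i • y i = ∑ n ∈ Finset.range m, X ^ n * ((p i).coeff n • y i) := by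
      intro i
      conv_lhs => rw [Polynomial.as_sum_range' (p i) m (hm i)]
      rw [Finset.sum_smul]
      refine Finset.sum_congr rfl fun n _ => ?_
      rw [Algebra.smul_def, PowerSeries.algebraMap_apply', smul_eq_C_mul, ← Polynomial.C_mul_X_pow_eq_monomial]
      simp
      ring
    have h1 : ∑ n ∈ Finset.range m, X ^ n * bc K (∑ i, (p i).coeff n • y i) = 0 := by
      have h2 : ∑ n ∈ Finset.range m, (X : ℚ⟦X⟧) ^ n * (∑ i, (p i).coeff n • y i) = 0 := by
        rw [← hp, Finset.sum_congr rfl fun i _ => hexp i, Finset.sum_comm]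
        exact Finset.sum_congr rfl fun n _ => by rw [Finset.mul_sum]
      have h3 := congrArg (bc K) h2
      rw [map_sum, map_zero] at h3
      rw [← h3]
      exact Finset.sum_congr rfl fun n _ => by rw [map_mul, map_pow, PowerSeries.map_X]
    have h2 := direct m (fun n => bc K (∑ i, (p i).coeff n • y i)) (fun n => VI_le hI (mem_W0.1
      (Submodule.sum_mem _ fun i _ => Submodule.smul_mem _ _ (hymem i)))) h1
    ext n
    rw [Polynomial.coeff_zero]
    by_cases hn : n < m
    · have h3 : ∑ i, (p i).coeff n • y i = 0 := bc_injective (by rw [h2 n hn, map_zero])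
      exact Fintype.linearIndependent_iff.1 hLI0 _ h3 i
    · exact Polynomial.coeff_eq_zero_of_natDegree_lt (by have := hm i; omega)
  have hval := E_lin hsys i₀ hi₀ hLI
  -- the end
  obtain ⟨c, hc⟩ := hrep f hf
  have h2 : evk φ (bc K f) = ((∑ i, c i • ev 1 (y i) : ℝ) : ℂ) := by
    have h3 : ∀ s : Finset (Fin N), EFK φ (∑ i ∈ s, (algebraMap ℚ K (c i)) • bc K (y i)) ∧
        evk φ (∑ i ∈ s, (algebraMap ℚ K (c i)) • bc K (y i)) = ((∑ i ∈ s, c i • ev 1 (y i) : ℝ) : ℂ) := by
      intro s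
      induction s using Finset.induction_on with
      | empty => rw [Finset.sum_empty, Finset.sum_empty]; exact ⟨EFK.zero, by rw [evk_zero]; simp⟩
      | insert i s hi ih =>
        have h4 : EFK φ (bc K (y i)) := EFK.of_mem (VI_le hI (mem_W0.1 (hymem i)))
        rw [Finset.sum_insert hi, Finset.sum_insert hi]
        refine ⟨(h4.smul _).add ih.1, ?_⟩
        rw [evk_add (h4.smul _) ih.1, ih.2, evk_smul, evk_bc, Complex.ofReal_add]
        congr 1
        rw [Rat.smul_def]
        push_cast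
        simp
    have h5 := (h3 Finset.univ).2
    rw [← h5]
    congr 1
    conv_lhs => rw [hc]
    rw [map_sum]
    exact Finset.sum_congr rfl fun i _ => bc_smul _ _
  rw [h2] at h0
  have h3 := Fintype.linearIndependent_iff.1 hval c (by exact_mod_cast h0)
  rw [hc, Finset.sum_eq_zero fun i _ => by rw [h3 i, zero_smul], map_zero]

/-- **the value at `1` of a nonzero element of the algebra is not zero** -/
theorem evk_inj (φ : K →+* ℂ) {P : K⟦X⟧} (hP : P ∈ SA K) (h0 : evk φ P = 0) : P = 0 := by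
  classical
  have hmem : ∀ σ : K ≃ₐ[ℚ] K, PowerSeries.map (σ : K →+* K) P ∈ SA K := fun σ => map_SA _ hP
  let Q : (K ≃ₐ[ℚ] K) → AA K := fun σ => ⟨PowerSeries.map (σ : K →+* K) P, hmem σ⟩
  have hQ1 : evA φ (Q 1) = 0 := by
    show evk φ (PowerSeries.map ((1 : K ≃ₐ[ℚ] K) : K →+* K) P) = 0
    rw [← h0]
    congr 1
  have hprod : evA φ (∏ σ, Q σ) = 0 := by
    rw [map_prod]
    exact Finset.prod_eq_zero (Finset.mem_univ 1) hQ1
  have hz := inv_zero φ (F := (∏ σ, Q σ : AA K).1) (∏ σ, Q σ : AA K).2 (fun τ => by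
    have h1 : ((∏ σ, Q σ : AA K) : K⟦X⟧) = ∏ σ : K ≃ₐ[ℚ] K, PowerSeries.map (σ : K →+* K) P := by
      rw [← Subalgebra.coe_val, map_prod]; rfl
    rw [h1, map_prod]
    refine Fintype.prod_equiv (Equiv.mulLeft τ) _ _ fun σ => ?_
    ext n
    rw [coeff_map, coeff_map, coeff_map]
    rfl) hprod
  have h2 : ((∏ σ, Q σ : AA K) : K⟦X⟧) = ∏ σ : K ≃ₐ[ℚ] K, PowerSeries.map (σ : K →+* K) P := by
    rw [← Subalgebra.coe_val, map_prod]; rfl
  rw [h2] at hz
  obtain ⟨σ, _, hσ⟩ := Finset.prod_eq_zero_iff.1 hz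
  exact PowerSeries.map_injective _ (σ : K →+* K).injective (by rw [hσ, map_zero])

end

end Pool.Agent.N902.EW
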