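import Pool.Agent.H18.L.N902.EW.Desc

/-!
# The algebra over the field of algebraic numbers: the value at `1` of a nonzero element is not zero
-/

set_option autoImplicit false
set_option linter.unusedSectionVars false

open PowerSeries

namespace Pool.Agent.N902.EW

/-- the field of algebraic numbers -/
noncomputable abbrev Qb : IntermediateField ℚ ℂ := algebraicClosure ℚ ℂ

instance algQb : Algebra.IsAlgebraic ℚ Qb := algebraicClosure.isAlgebraic ℚ ℂ

instance closedQb : IsAlgClosed Qb := (algebraicClosure.isAlgClosure (F := ℚ) (E := ℂ)).isAlgClosed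

instance closureQb : IsAlgClosure ℚ Qb := ⟨inferInstance, inferInstance⟩

instance galQb : IsGalois ℚ Qb := IsAlgClosure.isGalois ℚ Qb

/-- the embedding of the field of algebraic numbers -/
noncomputable abbrev io : Qb →+* ℂ := algebraMap Qb ℂ

lemma adm_of_map {K L : Type*} [Field K] [CharZero K] [Field L] [CharZero L] (φ : K →+* L) {w : List K}
    (h : Adm (w.map φ)) : Adm w := by
  induction w with
  | nil => trivial
  | cons a v ih =>
    refine ⟨ih h.1, fun h' => ?_⟩
    have := h.2 (by rw [h']; rfl)
    rwa [map_ne_zero] at this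

lemma exists_list {K L : Type*} [Field K] [Field L] (φ : K →+* L) (w : List L) (h : ∀ a ∈ w, a ∈ Set.range φ) :
    ∃ w' : List K, w'.map φ = w := by
  induction w with
  | nil => exact ⟨[], rfl⟩
  | cons a v ih =>
    obtain ⟨b, hb⟩ := h a (by simp)
    obtain ⟨v', hv'⟩ := ih fun c hc => h c (by simp [hc])
    exact ⟨b :: v', by rw [List.map_cons, hb, hv']⟩

lemma evk_map {K L : Type*} [Field K] [Field L] (φ : L →+* ℂ) (ψ : K →+* L) (f : K⟦X⟧) :
    evk φ (PowerSeries.map ψ f) = evk (φ.comp ψ) f := by
  rw [evk, evk]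
  exact tsum_congr fun m => by rw [coeff_map]; rfl

/-- **the value at `1` of a nonzero element of the algebra over the algebraic numbers is not zero** -/
theorem evk_inj_Qb (φ : Qb →+* ℂ) {P : (Qb : Type)⟦X⟧} (hP : P ∈ SA Qb) (h0 : evk φ P = 0) : P = 0 := by
  classical
  obtain ⟨s, c, hs, hPs⟩ := exists_sum hP
  -- the finite set of all elements which occur
  let S : Finset Qb := s.image c ∪ s.image Prod.fst ∪ s.biUnion fun x => x.2.toFinset
  let M : FiniteGaloisIntermediateField ℚ Qb := FiniteGaloisIntermediateField.adjoin ℚ (S : Set Qb)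
  let ψ : M.toIntermediateField →+* Qb := algebraMap M.toIntermediateField Qb
  have hM : ∀ a ∈ S, a ∈ Set.range ψ := fun a ha =>
    ⟨⟨a, FiniteGaloisIntermediateField.subset_adjoin ℚ (S : Set Qb) ha⟩, rfl⟩
  have hx : ∀ x ∈ s, ∃ (d : M.toIntermediateField) (y : M.toIntermediateField × List M.toIntermediateField),
      ψ d = c x ∧ mx ψ y = x := by
    intro x hx
    obtain ⟨d, hd⟩ := hM (c x) (by
      simp only [S, Finset.mem_union, Finset.mem_image]; exact Or.inl (Or.inl ⟨x, hx, rfl⟩))
    obtain ⟨l, hl⟩ := hM x.1 (by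
      simp only [S, Finset.mem_union, Finset.mem_image]; exact Or.inl (Or.inr ⟨x, hx, rfl⟩))
    obtain ⟨w, hw⟩ := exists_list ψ x.2 fun a ha => hM a (by
      simp only [S, Finset.mem_union, Finset.mem_biUnion, List.mem_toFinset]; exact Or.inr ⟨x, hx, ha⟩)
    exact ⟨d, (l, w), hd, Prod.ext hl hw⟩
  choose! d y hd hy using hx
  have hadm : ∀ x ∈ s, Adm (y x).2 := fun x hx => by
    apply adm_of_map ψ
    have := congrArg Prod.snd (hy x hx)
    simp only [mx] at this
    rw [this]
    exact hs x hx
  have hmap : PowerSeries.map ψ (∑ x ∈ s, d x • bf (y x)) = P := by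
    rw [hPs, map_sum]
    exact Finset.sum_congr rfl fun x hx => by rw [map_smul', map_bf, hd x hx, hy x hx]
  have hmem : (∑ x ∈ s, d x • bf (y x)) ∈ SA M.toIntermediateField :=
    Submodule.sum_mem _ fun x hx => Submodule.smul_mem _ _ (bf_mem (hadm x hx))
  have hnf : NumberField M.toIntermediateField := { to_charZero := inferInstance, to_finiteDimensional := inferInstance }
  have hgal : IsGalois ℚ M.toIntermediateField := M.isGalois
  rw [← hmap, evk_map] at h0
  rw [← hmap, evk_inj (φ.comp ψ) hmem h0, map_zero]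

/-- the evaluation is injective -/
theorem evA_injective (φ : Qb →+* ℂ) : Function.Injective (evA φ : AA Qb →+* ℂ) := by
  rw [injective_iff_map_eq_zero]
  intro f hf
  exact Subtype.ext (evk_inj_Qb φ f.2 hf)

end Pool.Agent.N902.EW
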