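import Pool.Agent.H18.L.N902.EW.Ei

/-!
# Generalized Gompertz numbers at algebraic points and Poisson means of tails: counting
-/

set_option autoImplicit false
set_option linter.unusedSectionVars false

open Set

namespace Pool.Agent.N902.EW

open Pool.Agent.R352.E

/-- the real numbers in the closure -/
noncomputable def rM (F : IntermediateField ℚ ℂ) (T : Set ℂ) : Subfield ℝ := (clf F T).comap Complex.ofRealHom

lemma mem_rM {F : IntermediateField ℚ ℂ} {T : Set ℂ} {x : ℝ} : x ∈ rM F T ↔ (x : ℂ) ∈ clf F T := Iff.rfl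

lemma clF_rM (F : IntermediateField ℚ ℂ) (T : Set ℂ) : clF (rM F T : Set ℝ) ≤ rM F T := by
  intro x hx
  rw [mem_rM]
  have h1 : IsAlgebraic (Algebra.adjoin ℚ (rM F T : Set ℝ)) x := mem_cl_iff.1 hx
  have hsub : (Complex.ofRealHom '' (rM F T : Set ℝ)) ⊆ (clf F T : Set ℂ) := by
    rintro _ ⟨z, hz, rfl⟩
    exact hz
  refine clf_le hsub (mem_cl.2 ?_)
  obtain ⟨p, hp, hpx⟩ := h1
  -- the homomorphism of the rings
  have hg : ∀ z ∈ Algebra.adjoin ℚ (rM F T : Set ℝ),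
      (Complex.ofRealHom z) ∈ (Algebra.adjoin F (Complex.ofRealHom '' (rM F T : Set ℝ))) := by
    intro z hz
    induction hz using Algebra.adjoin_induction with
    | mem z hz => exact Algebra.subset_adjoin ⟨z, hz, rfl⟩
    | algebraMap r =>
      have : Complex.ofRealHom (algebraMap ℚ ℝ r) = algebraMap F ℂ (algebraMap ℚ F r) := by simp
      rw [this]
      exact Subalgebra.algebraMap_mem _ _
    | add x y _ _ hx hy => rw [map_add]; exact Subalgebra.add_mem _ hx hy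
    | mul x y _ _ hx hy => rw [map_mul]; exact Subalgebra.mul_mem _ hx hy
  let g : Algebra.adjoin ℚ (rM F T : Set ℝ) →+* Algebra.adjoin F (Complex.ofRealHom '' (rM F T : Set ℝ)) :=
    (Complex.ofRealHom.comp (Algebra.adjoin ℚ (rM F T : Set ℝ)).val.toRingHom).codRestrict
      (Algebra.adjoin F (Complex.ofRealHom '' (rM F T : Set ℝ))).toSubring fun z => hg z.1 z.2
  have hginj : Function.Injective g := by
    intro a b hab
    apply Subtype.ext
    exact Complex.ofReal_injective (congrArg Subtype.val hab)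
  refine ⟨p.map g, (Polynomial.map_ne_zero_iff hginj).2 hp, ?_⟩
  rw [Polynomial.aeval_def, Polynomial.eval₂_map]
  have h3 : (algebraMap (Algebra.adjoin F (Complex.ofRealHom '' (rM F T : Set ℝ))) ℂ).comp g =
      Complex.ofRealHom.comp (algebraMap (Algebra.adjoin ℚ (rM F T : Set ℝ)) ℝ) := RingHom.ext fun _ => rfl
  rw [h3, show (x : ℂ) = Complex.ofRealHom x from rfl, ← Polynomial.hom_eval₂, ← Polynomial.aeval_def, hpx, map_zero]

lemma zt_eq {k : ℕ} (hk : 2 ≤ k) : ((zt k : ℝ) : ℂ) = riemannZeta k := by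
  rw [zeta_eq hk, zt, Complex.ofReal_tsum]
  refine tsum_congr fun n => ?_
  push_cast
  rfl

/-- membership of the exponential integrals -/
lemma EE_mem' {F : IntermediateField ℚ ℂ} {T : Set ℂ} {x : ℝ} (hx : 0 < x) (l : ℕ)
    (he : ((Real.exp (-x) : ℝ) : ℂ) ∈ clf F T)
    (h0 : ((Real.eulerMascheroniConstant + Real.log x : ℝ) : ℂ) ∈ clf F T)
    (hz : ∀ k, 2 ≤ k → k ≤ l → riemannZeta k ∈ clf F T) (hd : ((Pool.Agent.R352.E.dl l x : ℝ) : ℂ) ∈ clf F T) :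
    ((EE l x : ℝ) : ℂ) ∈ clf F T := by
  have h1 : EE l x = (-1) ^ l * (PowerSeries.coeff l (PB x) - Real.exp (-x) * Pool.Agent.R352.E.dl l x / l.factorial) := by
    rw [EE_rel l hx, coeff_PB]
    ring
  rw [← mem_rM, h1]
  have hsub : (rM F T : Set ℝ) ⊆ clF (rM F T : Set ℝ) := subset_clF _
  refine (rM F T).mul_mem ((rM F T).pow_mem ((rM F T).neg_mem (rM F T).one_mem) _) ((rM F T).sub_mem ?_ ?_)
  · apply clF_rM F T
    refine coeff_PB_mem (T := (rM F T : Set ℝ)) (hsub (mem_rM.2 h0)) l (fun k h2 hk => hsub ?_) l le_rfl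
    refine mem_rM.2 ?_
    rw [zt_eq h2]
    exact hz k h2 hk
  · exact (rM F T).div_mem ((rM F T).mul_mem (mem_rM.2 he) (mem_rM.2 hd)) (natCast_mem (rM F T) _)

lemma E0_le_clf {F : IntermediateField ℚ ℂ} {T : Set ℂ} {z : ℂ} (hz : z ∈ F) : z ∈ clf F T :=
  clf_of_alg (isAlgebraic_algebraMap (⟨z, hz⟩ : F))

lemma alg_cast {x : ℝ} (hx : IsAlgebraic ℚ x) : IsAlgebraic ℚ (x : ℂ) := by
  obtain ⟨p, hp, hpx⟩ := hx
  refine ⟨p, hp, ?_⟩
  have h := Polynomial.aeval_algebraMap_apply ℂ x p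
  rw [hpx, map_zero] at h
  exact h

/-- the index set: `δ_l(x)`, `1 ≤ l ≤ L`, `x ∈ P` and `T_k(x)`, `2 ≤ k ≤ L`, `x ∈ X` -/
abbrev Ix (L : ℕ) (P : Set ℝ) (X : Set ℂ) : Type :=
  {p : ℕ × ℂ // 2 ≤ p.1 ∧ p.1 ≤ L ∧ p.2 ∈ X} ⊕ {p : ℕ × ℝ // 1 ≤ p.1 ∧ p.1 ≤ L ∧ p.2 ∈ P}

/-- the numbers -/
noncomputable def nu {L : ℕ} {P : Set ℝ} {X : Set ℂ} : Ix L P X → ℂ :=
  Sum.elim (fun p => PT p.1.1 p.1.2) (fun p => ((Pool.Agent.R352.E.dl p.1.1 p.1.2 : ℝ) : ℂ))

/-- the independent numbers -/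
noncomputable def su {L : ℕ} {P : Set ℝ} {X : Set ℂ} : Ix L P X → ℂ :=
  Sum.elim (fun p => PS p.1.1 p.1.2) (fun p => ((-EE p.1.1 p.1.2 : ℝ) : ℂ))

theorem ai_su (L : ℕ) (P : Set ℝ) (hP : ∀ x ∈ P, 0 < x ∧ IsAlgebraic ℚ x) (X : Set ℂ)
    (hX : ∀ x ∈ X, IsAlgebraic ℚ x ∧ ∀ y ∈ X, x + y ≠ 0) : AlgebraicIndependent E0 (su (L := L) (P := P) (X := X)) := by
  have hne : ∀ x ∈ X, x ≠ 0 := by
    intro x hx h0
    exact (hX x hx).2 x hx (by rw [h0, add_zero])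
  let X' : Set Qb := {x | io x ∈ X}
  have hX' : ∀ x ∈ X', ∀ y ∈ X', x + y ≠ 0 := by
    intro x hx y hy h
    refine (hX _ hx).2 _ hy ?_
    rw [← map_add, h, map_zero]
  have hX0 : ∀ x : X', x.1 ≠ 0 := fun x h => hne _ x.2 (by rw [h, map_zero])
  have h1 := ai_joint X' hX' hX0
  choose f hf using fun p : {p : ℕ × ℂ // 2 ≤ p.1 ∧ p.1 ≤ L ∧ p.2 ∈ X} => mem_range_io (hX p.1.2 p.2.2.2).1
  have hPa : ∀ p : {p : ℕ × ℝ // 1 ≤ p.1 ∧ p.1 ≤ L ∧ p.2 ∈ P}, IsAlgebraic ℚ ((-p.1.2 : ℝ) : ℂ) := fun p =>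
    alg_cast (hP _ p.2.2.2).2.neg
  choose a ha using fun p : {p : ℕ × ℝ // 1 ≤ p.1 ∧ p.1 ≤ L ∧ p.2 ∈ P} => mem_range_io (hPa p)
  have ha0 : ∀ p, a p ≠ 0 := by
    intro p h
    have h2 := ha p
    rw [h, map_zero] at h2
    have h3 : (-p.1.2 : ℝ) = 0 := by exact_mod_cast h2.symm
    have := (hP _ p.2.2.2).1
    linarith
  let g : Ix L P X → (X' × ℕ) ⊕ ({a : Qb // a ≠ 0} × ℕ) := Sum.map
    (fun p => (⟨f p, by show io (f p) ∈ X; rw [hf]; exact p.2.2.2⟩, p.1.1 - 2)) (fun p => (⟨a p, ha0 p⟩, p.1.1 - 1))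
  have hg : Function.Injective g := by
    refine Function.Injective.sumMap ?_ ?_
    · intro p q h
      have e1 : f p = f q := congrArg (fun z => z.1.1) h
      have e2 : p.1.1 - 2 = q.1.1 - 2 := congrArg (fun z => z.2) h
      apply Subtype.ext
      apply Prod.ext
      · have := p.2.1
        have := q.2.1
        omega
      · rw [← hf p, ← hf q, e1]
    · intro p q h
      have e1 : a p = a q := congrArg (fun z => z.1.1) h
      have e2 : p.1.1 - 1 = q.1.1 - 1 := congrArg (fun z => z.2) h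
      apply Subtype.ext
      apply Prod.ext
      · have := p.2.1
        have := q.2.1
        omega
      · have h3 : ((-p.1.2 : ℝ) : ℂ) = ((-q.1.2 : ℝ) : ℂ) := by rw [← ha p, ← ha q, e1]
        have h4 : -p.1.2 = -q.1.2 := by exact_mod_cast h3
        linarith
  have h2 := h1.comp g hg
  have h3 : (Sum.elim (fun p : X' × ℕ => evA io (sk p.1.1 (hX0 p.1) p.2))
      (fun p : {a : Qb // a ≠ 0} × ℕ => evA io (mk 0 (zs p.1.1 p.2) (adm_zs p.1.2 p.2)))) ∘ g =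
      su (L := L) (P := P) (X := X) := by
    funext i
    rcases i with p | p
    · show evA io (sk (f p) _ (p.1.1 - 2)) = PS p.1.1 p.1.2
      rw [evA_sk, hf]
      congr 1
      have := p.2.1
      omega
    · show evA io (mk 0 (zs (a p) (p.1.1 - 1)) _) = ((-EE p.1.1 p.1.2 : ℝ) : ℂ)
      rw [evA_zs_neg (ha0 p) (ha p)]
      congr 3
      have := p.2.1
      omega
  rwa [h3] at h2

/-- membership -/
theorem su_mem {L : ℕ} {P : Set ℝ} (hP : ∀ x ∈ P, 0 < x ∧ IsAlgebraic ℚ x) {X : Set ℂ} {T : Set ℂ}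
    (hL : ∀ k, 2 ≤ k → k ≤ L → riemannZeta k ∈ clf E0 T)
    (hG : ∀ x ∈ P, ((Real.eulerMascheroniConstant + Real.log x : ℝ) : ℂ) ∈ clf E0 T) (i : Ix L P X)
    (hi : nu i ∈ clf E0 T) : su i ∈ clf E0 T := by
  rcases i with p | p
  · have h3 := zeta_split p.2.1 p.1.2
    have h4 : PS p.1.1 p.1.2 = riemannZeta p.1.1 - PT p.1.1 p.1.2 := by rw [h3]; ring
    show PS p.1.1 p.1.2 ∈ _
    rw [h4]
    exact (clf E0 T).sub_mem (hL _ p.2.1 p.2.2.1) hi
  · show ((-EE p.1.1 p.1.2 : ℝ) : ℂ) ∈ _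
    push_cast
    refine (clf E0 T).neg_mem ?_
    refine EE_mem' (hP _ p.2.2.2).1 p.1.1 ?_ (hG _ p.2.2.2) (fun k h2 hk => hL k h2 (hk.trans p.2.2.1)) hi
    push_cast
    refine E0_le_clf (exp_mem_E0 ?_)
    have := (alg_cast (hP _ p.2.2.2).2).neg
    exact this

/-- the counting theorem -/
theorem count_G (L : ℕ) (P : Set ℝ) (hP : ∀ x ∈ P, 0 < x ∧ IsAlgebraic ℚ x) (X : Set ℂ)
    (hX : ∀ x ∈ X, IsAlgebraic ℚ x ∧ ∀ y ∈ X, x + y ≠ 0) {r : ℕ} (y : Fin r → ℂ)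
    (hL : ∀ k, 2 ≤ k → k ≤ L → IsAlgebraic (IntermediateField.adjoin E0 (range y)) (riemannZeta k))
    (hG : ∀ x ∈ P, IsAlgebraic (IntermediateField.adjoin E0 (range y))
      ((Real.eulerMascheroniConstant + Real.log x : ℝ) : ℂ)) :
    {n : Fin r ⊕ Ix L P X | Sum.elim (fun j => IsAlgebraic E0 (y j)) (fun i => IsAlgebraic E0 (nu i)) n}.encard ≤
      (r : ℕ∞) := by
  refine count_le (ai_su L P hP X hX) y nu fun i => ?_
  refine su_mem hP (fun k h2 hk => ?_) (fun x hx => ?_) i (subset_clf _ (mem_insert _ _))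
  · exact clf_mono (subset_insert _ _) (mem_clf.2 (hL k h2 hk))
  · exact clf_mono (subset_insert _ _) (mem_clf.2 (hG x hx))

/-- the transcendence degree -/
theorem trdeg_G (L : ℕ) (P : Set ℝ) (hP : ∀ x ∈ P, 0 < x ∧ IsAlgebraic ℚ x) (X : Set ℂ)
    (hX : ∀ x ∈ X, IsAlgebraic ℚ x ∧ ∀ y ∈ X, x + y ≠ 0) {r : ℕ} (y : Fin r → ℂ)
    (hL : ∀ k, 2 ≤ k → k ≤ L → IsAlgebraic (IntermediateField.adjoin E0 (range y)) (riemannZeta k))
    (hG : ∀ x ∈ P, IsAlgebraic (IntermediateField.adjoin E0 (range y))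
      ((Real.eulerMascheroniConstant + Real.log x : ℝ) : ℂ)) (A : Finset (Ix L P X)) :
    (A.card : Cardinal) ≤ Algebra.trdeg E0 (IntermediateField.adjoin E0 (range y ∪ nu '' (A : Set (Ix L P X)))) := by
  have h0 := trdeg_ge ((ai_su L P hP X hX).comp (Subtype.val : A → Ix L P X) Subtype.val_injective)
    (A := range y ∪ nu '' (A : Set (Ix L P X))) fun i => by
      refine su_mem hP (fun k h2 hk => ?_) (fun x hx => ?_) i.1 (subset_clf _ (Or.inr ⟨i.1, i.2, rfl⟩))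
      · exact clf_mono subset_union_left (mem_clf.2 (hL k h2 hk))
      · exact clf_mono subset_union_left (mem_clf.2 (hG x hx))
  rw [Fintype.card_coe] at h0
  exact h0

end Pool.Agent.N902.EW
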