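import Pool.Agent.H18.L.N902.EW.Alg

/-!
# Derivations of the algebra, algebraic independence
-/

set_option autoImplicit false
set_option linter.unusedSectionVars false

open PowerSeries

namespace Pool.Agent.N902.EW

/-! ### Derivations and algebraic independence -/

section

variable {k R A ι : Type*} [CommRing R] [CommRing A] [IsDomain A] [CharZero A] [Algebra R A] [CommRing k] [Algebra k A]

/-- the criterion: derivations which kill the base ring and are diagonal on the family -/
theorem ai_of_der (hinj : Function.Injective (algebraMap R A)) (y : ι → A) (D : ι → Derivation k A A)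
    (hB : ∀ i b, D i (algebraMap R A b) = 0) (c : ι → A) (hc : ∀ i, c i ≠ 0) (hy : ∀ i, D i (y i) = c i)
    (hy' : ∀ i j, i ≠ j → D i (y j) = 0) : AlgebraicIndependent R y := by
  classical
  have key : ∀ (i : ι) (P : MvPolynomial ι R),
      D i (MvPolynomial.aeval y P) = c i * MvPolynomial.aeval y (MvPolynomial.pderiv i P) := by
    intro i P
    induction P using MvPolynomial.induction_on with
    | C b => rw [MvPolynomial.aeval_C, hB, MvPolynomial.pderiv_C, map_zero, mul_zero]
    | add P Q hP hQ => rw [map_add, map_add, hP, hQ, map_add, map_add, mul_add]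
    | mul_X P j hP =>
      rw [map_mul, Derivation.leibniz, hP, MvPolynomial.aeval_X, MvPolynomial.pderiv_mul, map_add, map_mul, map_mul,
        MvPolynomial.aeval_X]
      simp only [smul_eq_mul]
      by_cases hij : i = j
      · subst hij
        rw [hy, MvPolynomial.pderiv_X_self, map_one]; ring
      · rw [hy' i j hij, MvPolynomial.pderiv_X_of_ne (Ne.symm hij), map_zero]; ring
  have hfree : ∀ (r : R) (n : ℕ), n ≠ 0 → r * (n : R) = 0 → r = 0 := by
    intro r n hn h
    apply hinj
    rw [map_zero]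
    have h1 := congrArg (algebraMap R A) h
    rw [map_mul, map_natCast, map_zero] at h1
    exact (mul_eq_zero.1 h1).resolve_right (by exact_mod_cast hn)
  have main : ∀ (n : ℕ) (P : MvPolynomial ι R), (∀ s, MvPolynomial.coeff s P ≠ 0 → s.degree ≤ n) →
      MvPolynomial.aeval y P = 0 → P = 0 := by
    intro n
    have const : ∀ P : MvPolynomial ι R, (∀ s, MvPolynomial.coeff s P ≠ 0 → s = 0) → MvPolynomial.aeval y P = 0 →
        P = 0 := by
      intro P hP h0
      have h1 : P = MvPolynomial.C (MvPolynomial.coeff 0 P) := by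
        ext s
        rw [MvPolynomial.coeff_C]
        split_ifs with hs
        · rw [hs]
        · by_contra h
          exact hs (hP s h).symm
      rw [h1, MvPolynomial.aeval_C] at h0
      rw [h1, hinj (h0.trans (map_zero _).symm), MvPolynomial.C_0]
    induction n with
    | zero =>
      intro P hP h0
      exact const P (fun s hs => (Finsupp.degree_eq_zero_iff s).1 (Nat.le_zero.1 (hP s hs))) h0
    | succ n ih =>
      intro P hP h0
      have hpd : ∀ i, MvPolynomial.pderiv i P = 0 := by
        intro i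
        apply ih
        · intro s hs
          rw [MvPolynomial.coeff_pderiv] at hs
          have h1 := hP (s + Finsupp.single i 1) (fun h => hs (by rw [h, zero_mul]))
          rw [map_add, Finsupp.degree_single] at h1
          omega
        · have h1 := key i P
          rw [h0, map_zero] at h1
          exact (mul_eq_zero.1 h1.symm).resolve_left (hc i)
      refine const P (fun s hs => ?_) h0
      by_contra hs0
      obtain ⟨i, hi⟩ := Finsupp.ne_iff.1 hs0
      have h1 := congrArg (MvPolynomial.coeff (s - Finsupp.single i 1)) (hpd i)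
      rw [MvPolynomial.coeff_pderiv, MvPolynomial.coeff_zero] at h1
      have h2 : s - Finsupp.single i 1 + Finsupp.single i 1 = s := by
        ext j
        simp only [Finsupp.add_apply, Finsupp.tsub_apply, Finsupp.single_apply]
        split_ifs with hj
        · subst hj
          have : s i ≠ 0 := hi
          omega
        · omega
      rw [h2] at h1
      refine hs (hfree _ ((s - Finsupp.single i 1 : ι →₀ ℕ) i + 1) (Nat.succ_ne_zero _) ?_)
      rw [← h1]
      push_cast
      rfl
  rw [algebraicIndependent_iff]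
  intro P hP
  refine main (P.support.sup Finsupp.degree) P (fun s hs => ?_) hP
  exact Finset.le_sup (f := Finsupp.degree) (MvPolynomial.mem_support_iff.2 hs)

end

section

variable {K : Type*} [Field K] [CharZero K]

/-- the elements `exp (l X) U_w` of the algebra -/
noncomputable def mk (l : K) (w : List K) (h : Adm w) : AA K := ⟨ex l * U w, bf_mem (x := (l, w)) h⟩

lemma mk_mul_nil (l m : K) (w : List K) (h : Adm w) (h' : Adm ([] : List K)) :
    mk l [] h' * mk m w h = mk (l + m) w h := by
  apply Subtype.ext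
  show ex l * U [] * (ex m * U w) = ex (l + m) * U w
  rw [U_nil, ex_add]; ring

/-- the basis of the algebra -/
noncomputable def bA (K : Type*) [Field K] [CharZero K] : Module.Basis {x : K × List K // Adm x.2} K (AA K) :=
  Module.Basis.mk (v := fun x => mk x.1.1 x.1.2 x.2)
    (by
      refine LinearIndependent.of_comp (AA K).val.toLinearMap ?_
      exact LI_K)
    (by
      rintro ⟨f, hf⟩ _
      obtain ⟨s, c, hs, rfl⟩ := exists_sum hf
      have h1 : (⟨∑ x ∈ s, c x • bf x, hf⟩ : AA K) = ∑ x ∈ s.attach, c x.1 • mk x.1.1 x.1.2 (hs x.1 x.2) := by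
        apply Subtype.ext
        have h2 : ((∑ x ∈ s.attach, c x.1 • mk x.1.1 x.1.2 (hs x.1 x.2) : AA K) : K⟦X⟧) =
            ∑ x ∈ s.attach, c x.1 • bf x.1 := by
          rw [← Subalgebra.coe_val, map_sum]; rfl
        rw [h2]
        exact (Finset.sum_attach s (fun x => c x • bf x)).symm
      rw [h1]
      exact Submodule.sum_mem _ fun x _ => Submodule.smul_mem _ _ (Submodule.subset_span ⟨⟨x.1, hs x.1 x.2⟩, rfl⟩))

lemma bA_apply (x : {x : K × List K // Adm x.2}) : bA K x = mk x.1.1 x.1.2 x.2 := by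
  rw [bA, Module.Basis.mk_apply]

open Classical in
/-- removal of the first letter, if it is `a` -/
noncomputable def rm (a : K) : (x : {x : K × List K // Adm x.2}) → AA K
  | ⟨(_, []), _⟩ => 0
  | ⟨(l, b :: v), h⟩ => if b = a then mk l v h.1 else 0

/-- the removal as a linear map -/
noncomputable def dA (a : K) : AA K →ₗ[K] AA K := (bA K).constr K (rm a)

lemma dA_nil (a l : K) (h : Adm ([] : List K)) : dA a (mk l [] h) = 0 := by
  have h1 := (bA K).constr_basis K (rm a) ⟨(l, []), h⟩
  rw [bA_apply] at h1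
  exact h1

lemma dA_cons (a l b : K) (v : List K) (h : Adm (b :: v)) [Decidable (b = a)] :
    dA a (mk l (b :: v) h) = if b = a then mk l v h.1 else 0 := by
  have h1 := (bA K).constr_basis K (rm a) ⟨(l, b :: v), h⟩
  rw [bA_apply] at h1
  rw [dA]
  refine h1.trans ?_
  rw [rm]
  split_ifs <;> rfl

lemma dA_ig (a b l : K) {f : K⟦X⟧} (hf : f ∈ SP K) : ∀ (h1 : ex l * ig (lt b * f) ∈ AA K) (h2 : ex l * f ∈ AA K)
    [Decidable (b = a)], dA a ⟨ex l * ig (lt b * f), h1⟩ = if b = a then ⟨ex l * f, h2⟩ else 0 := by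
  have hm1 : ∀ f ∈ SP K, ex l * ig (lt b * f) ∈ AA K := fun f hf => ex_mul_mem l (SP_le (ig_mul_mem b hf))
  have hm2 : ∀ f ∈ SP K, ex l * f ∈ AA K := fun f hf => ex_mul_mem l (SP_le hf)
  refine Submodule.span_induction (p := fun f _ => ∀ (h1 : ex l * ig (lt b * f) ∈ AA K) (h2 : ex l * f ∈ AA K)
    [Decidable (b = a)], dA a ⟨ex l * ig (lt b * f), h1⟩ = if b = a then ⟨ex l * f, h2⟩ else 0) ?_ ?_ ?_ ?_ hf
  · rintro _ ⟨w, hw, hne, rfl⟩ h1 h2 _
    exact dA_cons a l b w (adm_cons hw hne)
  · intro h1 h2 _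
    have e1 : (⟨ex l * ig (lt b * 0), h1⟩ : AA K) = 0 := by
      apply Subtype.ext
      show ex l * ig (lt b * 0) = 0
      have : ig (0 : K⟦X⟧) = 0 := by ext n; rw [coeff_ig]; simp
      rw [mul_zero, this, mul_zero]
    have e2 : (⟨ex l * 0, h2⟩ : AA K) = 0 := Subtype.ext (mul_zero _)
    rw [e1, e2, map_zero]
    split_ifs <;> rfl
  · intro x y hx hy ihx ihy h1 h2 _
    have e1 : (⟨ex l * ig (lt b * (x + y)), h1⟩ : AA K) =
        ⟨ex l * ig (lt b * x), hm1 x hx⟩ + ⟨ex l * ig (lt b * y), hm1 y hy⟩ := by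
      apply Subtype.ext
      show ex l * ig (lt b * (x + y)) = ex l * ig (lt b * x) + ex l * ig (lt b * y)
      rw [mul_add (lt b), ig_add, mul_add]
    have e2 : (⟨ex l * (x + y), h2⟩ : AA K) = ⟨ex l * x, hm2 x hx⟩ + ⟨ex l * y, hm2 y hy⟩ :=
      Subtype.ext (mul_add _ _ _)
    rw [e1, e2, map_add, ihx (hm1 x hx) (hm2 x hx), ihy (hm1 y hy) (hm2 y hy)]
    split_ifs
    · rfl
    · rw [add_zero]
  · intro c x hx ihx h1 h2 _
    have e1 : (⟨ex l * ig (lt b * (c • x)), h1⟩ : AA K) = c • ⟨ex l * ig (lt b * x), hm1 x hx⟩ := by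
      apply Subtype.ext
      show ex l * ig (lt b * (c • x)) = c • (ex l * ig (lt b * x))
      rw [mul_smul_comm, ig_smul, mul_smul_comm]
    have e2 : (⟨ex l * (c • x), h2⟩ : AA K) = c • ⟨ex l * x, hm2 x hx⟩ := Subtype.ext (mul_smul_comm _ _ _)
    rw [e1, e2, map_smul, ihx (hm1 x hx) (hm2 x hx)]
    split_ifs
    · rfl
    · rw [smul_zero]

lemma mk_mul_cons (l m b c : K) (u v : List K) (hu : Adm (b :: u)) (hv : Adm (c :: v))
    (h1 : ex (l + m) * ig (lt b * (U u * U (c :: v))) ∈ AA K) (h2 : ex (l + m) * ig (lt c * (U (b :: u) * U v)) ∈ AA K) :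
    mk l (b :: u) hu * mk m (c :: v) hv = ⟨_, h1⟩ + ⟨_, h2⟩ := by
  apply Subtype.ext
  show ex l * U (b :: u) * (ex m * U (c :: v)) = ex (l + m) * ig (lt b * (U u * U (c :: v))) +
    ex (l + m) * ig (lt c * (U (b :: u) * U v))
  have h0 : coeff 0 (U (b :: u) * U (c :: v)) = 0 := by
    rw [coeff_zero_eq_constantCoeff_apply, map_mul, ← coeff_zero_eq_constantCoeff_apply,
      coeff_zero_U (by simp), zero_mul]
  have h3 : U (b :: u) * U (c :: v) = ig (lt b * (U u * U (c :: v))) + ig (lt c * (U (b :: u) * U v)) := by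
    rw [← ig_th h0, th_mul, th_U_cons hu, th_U_cons hv, ig_add]
    congr 2
    · ring
    · ring
  rw [← mul_add, ← h3, ex_add]
  ring

lemma dA_mul_basis (a : K) (x y : {x : K × List K // Adm x.2}) :
    dA a (mk x.1.1 x.1.2 x.2 * mk y.1.1 y.1.2 y.2) =
      mk x.1.1 x.1.2 x.2 * dA a (mk y.1.1 y.1.2 y.2) + mk y.1.1 y.1.2 y.2 * dA a (mk x.1.1 x.1.2 x.2) := by
  classical
  obtain ⟨⟨l, u⟩, hu⟩ := x
  obtain ⟨⟨m, v⟩, hv⟩ := y
  simp only
  simp only at hu hv
  rcases u with _ | ⟨b, u⟩
  · rw [mk_mul_nil, dA_nil, mul_zero, add_zero]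
    rcases v with _ | ⟨c, v⟩
    · rw [dA_nil, dA_nil, mul_zero]
    · rw [dA_cons, dA_cons]
      split_ifs
      · rw [mk_mul_nil]
      · rw [mul_zero]
  · rcases v with _ | ⟨c, v⟩
    · rw [mul_comm, mk_mul_nil, dA_nil, mul_zero, zero_add, dA_cons, dA_cons]
      split_ifs
      · rw [mk_mul_nil]
      · rw [mul_zero]
    · have hA : U u * U (c :: v) ∈ SP K := U_mul_U _ _ _ le_rfl hu.1 hv (Or.inr (by simp))
      have hB : U (b :: u) * U v ∈ SP K := U_mul_U _ _ _ le_rfl hu hv.1 (Or.inl (by simp))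
      have m1 : ex (l + m) * ig (lt b * (U u * U (c :: v))) ∈ AA K := ex_mul_mem _ (SP_le (ig_mul_mem b hA))
      have m2 : ex (l + m) * ig (lt c * (U (b :: u) * U v)) ∈ AA K := ex_mul_mem _ (SP_le (ig_mul_mem c hB))
      have m3 : ex (l + m) * (U u * U (c :: v)) ∈ AA K := ex_mul_mem _ (SP_le hA)
      have m4 : ex (l + m) * (U (b :: u) * U v) ∈ AA K := ex_mul_mem _ (SP_le hB)
      rw [mk_mul_cons l m b c u v hu hv m1 m2, map_add, dA_ig a b (l + m) hA m1 m3, dA_ig a c (l + m) hB m2 m4,
        dA_cons, dA_cons, add_comm]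
      congr 1
      · split_ifs
        · apply Subtype.ext
          show ex (l + m) * (U (b :: u) * U v) = ex l * U (b :: u) * (ex m * U v)
          rw [ex_add]; ring
        · rw [mul_zero]
      · split_ifs
        · apply Subtype.ext
          show ex (l + m) * (U u * U (c :: v)) = ex m * U (c :: v) * (ex l * U u)
          rw [ex_add]; ring
        · rw [mul_zero]

lemma dA_mul (a : K) (f g : AA K) : dA a (f * g) = f * dA a g + g * dA a f := by
  have h : (LinearMap.mul K (AA K)).compr₂ (dA a) = (LinearMap.mul K (AA K)).compl₂ (dA a) +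
      ((LinearMap.mul K (AA K)).compl₂ (dA a)).flip := by
    refine LinearMap.ext_basis (bA K) (bA K) fun x y => ?_
    rw [bA_apply, bA_apply]
    exact dA_mul_basis a x y
  exact congrArg (fun L => L f g) h

/-- the removal of the first letter as a derivation -/
noncomputable def DA (a : K) : Derivation K (AA K) (AA K) := Derivation.mk' (dA a) fun f g => by
  rw [smul_eq_mul, smul_eq_mul]; exact dA_mul a f g

lemma DA_apply (a : K) (f : AA K) : DA a f = dA a f := rfl

lemma DA_nil (a l : K) (h : Adm ([] : List K)) : DA a (mk l [] h) = 0 := dA_nil a l h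

lemma DA_self (a l : K) (v : List K) (h : Adm (a :: v)) : DA a (mk l (a :: v) h) = mk l v h.1 := by
  classical
  rw [DA_apply, dA_cons, if_pos rfl]

lemma DA_ne {a b : K} (hab : b ≠ a) (l : K) (v : List K) (h : Adm (b :: v)) : DA a (mk l (b :: v) h) = 0 := by
  classical
  rw [DA_apply, dA_cons, if_neg hab]

end

end Pool.Agent.N902.EW
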