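import Pool.Agent.H18.L.N902.EW.Bo

/-!
# The final forms: words of complex algebraic numbers
-/

set_option autoImplicit false
set_option linter.unusedSectionVars false

open PowerSeries Set

namespace Pool.Agent.N902.EW

lemma adm_iff {K : Type*} [Field K] (w : List K) : Adm w ↔ ∀ h : w ≠ [], w.getLast h ≠ 0 := by
  induction w with
  | nil => exact ⟨fun _ h => absurd rfl h, fun _ => trivial⟩
  | cons a v ih =>
    by_cases hv : v = []
    · subst hv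
      constructor
      · intro h _
        exact h.2 rfl
      · intro h
        exact ⟨trivial, fun _ => h (by simp)⟩
    · constructor
      · intro h h'
        rw [List.getLast_cons hv]
        exact ih.1 h.1 hv
      · intro h
        refine ⟨ih.2 fun _ => ?_, fun h' => absurd h' hv⟩
        have := h (by simp)
        rwa [List.getLast_cons hv] at this

/-- words of algebraic numbers whose last letter is not zero -/
def Wd (w : List ℂ) : Prop := (∀ a ∈ w, IsAlgebraic ℚ a) ∧ ∀ h : w ≠ [], w.getLast h ≠ 0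

lemma mem_range_io {z : ℂ} (h : IsAlgebraic ℚ z) : z ∈ Set.range io :=
  ⟨⟨z, mem_algebraicClosure_iff'.2 h.isIntegral⟩, rfl⟩

lemma alg_io (b : Qb) : IsAlgebraic ℚ (io b) := mem_algebraicClosure_iff.1 b.2

lemma exists_word {w : List ℂ} (h : Wd w) : ∃ w' : List Qb, w'.map io = w ∧ Adm w' := by
  obtain ⟨w', hw'⟩ := exists_list io w fun a ha => mem_range_io (h.1 a ha)
  refine ⟨w', hw', adm_of_map io ?_⟩
  rw [hw', adm_iff]
  exact h.2

lemma wd_map {w : List Qb} (h : Adm w) : Wd (w.map io) := by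
  refine ⟨fun a ha => ?_, (adm_iff _).1 (map_adm io h)⟩
  obtain ⟨b, _, rfl⟩ := List.mem_map.1 ha
  exact alg_io b

/-- no opposite letters -/
def NoOp (w : List ℂ) : Prop := ∀ a ∈ w, a ≠ 0 → -a ∉ w

lemma noOp_map {w : List Qb} : NoOp (w.map io) ↔ NoOpp w := by
  constructor
  · intro h a ha ha0 hna
    refine h (io a) (List.mem_map.2 ⟨a, ha, rfl⟩) ((map_ne_zero io).2 ha0) ?_
    rw [← map_neg]
    exact List.mem_map.2 ⟨-a, hna, rfl⟩
  · intro h a ha ha0 hna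
    obtain ⟨b, hb, rfl⟩ := List.mem_map.1 ha
    obtain ⟨c, hc, hc'⟩ := List.mem_map.1 hna
    rw [← map_neg] at hc'
    have h1 : c = -b := io.injective hc'
    exact h b hb ((map_ne_zero io).1 ha0) (h1 ▸ hc)

lemma GG_eq : GG = {z | IsAlgebraic ℚ z} ∪ {z | ∃ b : ℂ, IsAlgebraic ℚ b ∧ z = Complex.exp b} ∪
    {z | ∃ w : List ℂ, Wd w ∧ NoOp w ∧ z = II w 1} := by
  rw [GG]
  congr 1
  · congr 1
    ext z
    constructor
    · rintro ⟨b, rfl⟩; exact ⟨io b, alg_io b, evk_ex b⟩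
    · rintro ⟨b, hb, rfl⟩
      obtain ⟨b', rfl⟩ := mem_range_io hb
      exact ⟨b', (evk_ex b').symm⟩
  · ext z
    constructor
    · rintro ⟨w, hw, hno, rfl⟩
      exact ⟨w.map io, wd_map hw, noOp_map.2 hno, (II_one w hw).symm⟩
    · rintro ⟨w, hw, hno, rfl⟩
      obtain ⟨w', rfl, hw'⟩ := exists_word hw
      exact ⟨w', hw', noOp_map.1 hno, II_one w' hw'⟩

/-- the base field -/
noncomputable def KK : IntermediateField ℚ ℂ := IntermediateField.adjoin ℚ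
  ({z | IsAlgebraic ℚ z} ∪ {z | ∃ b : ℂ, IsAlgebraic ℚ b ∧ z = Complex.exp b} ∪
    {z | ∃ w : List ℂ, Wd w ∧ NoOp w ∧ z = II w 1})

/-- the values `S_k(x)` are algebraically independent over the base field -/
theorem ai_PS (X : Set ℂ) (hX : ∀ x ∈ X, IsAlgebraic ℚ x ∧ ∀ y ∈ X, x + y ≠ 0) :
    AlgebraicIndependent KK (fun p : {p : ℕ × ℂ // 2 ≤ p.1 ∧ p.2 ∈ X} => PS p.1.1 p.1.2) := by
  have hne : ∀ x ∈ X, x ≠ 0 := by
    intro x hx h0
    exact (hX x hx).2 x hx (by rw [h0, add_zero])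
  let X' : Set Qb := {x | io x ∈ X}
  have hX' : ∀ x ∈ X', ∀ y ∈ X', x + y ≠ 0 := by
    intro x hx y hy h
    refine (hX _ hx).2 _ hy ?_
    rw [← map_add, h, map_zero]
  have hX0 : ∀ x : X', x.1 ≠ 0 := fun x h => hne _ x.2 (by rw [h, map_zero])
  have h1 := ai_values X' hX' hX0
  rw [GG_eq] at h1
  choose f hf using fun p : {p : ℕ × ℂ // 2 ≤ p.1 ∧ p.2 ∈ X} => mem_range_io (hX p.1.2 p.2.2).1
  let g : {p : ℕ × ℂ // 2 ≤ p.1 ∧ p.2 ∈ X} → X' × ℕ := fun p => (⟨f p, by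
    show io (f p) ∈ X
    rw [hf]; exact p.2.2⟩, p.1.1 - 2)
  have hg : Function.Injective g := by
    intro p q h
    have e1 : f p = f q := congrArg (fun z => z.1.1) h
    have e2 : p.1.1 - 2 = q.1.1 - 2 := congrArg (fun z => z.2) h
    apply Subtype.ext
    apply Prod.ext
    · have := p.2.1
      have := q.2.1
      omega
    · rw [← hf p, ← hf q, e1]
  have h2 : AlgebraicIndependent KK ((fun p : X' × ℕ => evA io (sk p.1.1 (hX0 p.1) p.2)) ∘ g) := h1.comp g hg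
  have h3 : (fun p : X' × ℕ => evA io (sk p.1.1 (hX0 p.1) p.2)) ∘ g =
      fun p : {p : ℕ × ℂ // 2 ≤ p.1 ∧ p.2 ∈ X} => PS p.1.1 p.1.2 := by
    funext p
    show evA io (sk (f p) _ (p.1.1 - 2)) = PS p.1.1 p.1.2
    rw [evA_sk, hf]
    congr 1
    have := p.2.1
    omega
  rwa [h3] at h2

lemma exp_mem_KK {b : ℂ} (hb : IsAlgebraic ℚ b) : Complex.exp b ∈ KK :=
  IntermediateField.subset_adjoin _ _ (Or.inl (Or.inr ⟨b, hb, rfl⟩))

lemma alg_mem_KK {b : ℂ} (hb : IsAlgebraic ℚ b) : b ∈ KK :=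
  IntermediateField.subset_adjoin _ _ (Or.inl (Or.inl hb))

/-- the counting theorem -/
theorem count_zeta (X : Set ℂ) (hX : ∀ x ∈ X, IsAlgebraic ℚ x ∧ ∀ y ∈ X, x + y ≠ 0) {r : ℕ} (y : Fin r → ℂ) (Q : Set ℕ)
    (hQ : ∀ k ∈ Q, 2 ≤ k ∧ IsAlgebraic (IntermediateField.adjoin KK (range y)) (riemannZeta k)) :
    {n : Fin r ⊕ {p : ℕ × ℂ // p.1 ∈ Q ∧ p.2 ∈ X} | Sum.elim (fun j => IsAlgebraic KK (y j))
      (fun p => IsAlgebraic KK (PT p.1.1 p.1.2)) n}.encard ≤ (r : ℕ∞) := by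
  let g : {p : ℕ × ℂ // p.1 ∈ Q ∧ p.2 ∈ X} → {p : ℕ × ℂ // 2 ≤ p.1 ∧ p.2 ∈ X} := fun p => ⟨p.1, (hQ _ p.2.1).1, p.2.2⟩
  have hg : Function.Injective g := by
    intro p q h
    exact Subtype.ext (congrArg (fun z => z.1) h)
  refine count_le ((ai_PS X hX).comp g hg) y (fun p => PT p.1.1 p.1.2) fun p => ?_
  have h1 : riemannZeta p.1.1 ∈ clf KK (insert (PT p.1.1 p.1.2) (range y)) :=
    clf_mono (subset_insert _ _) (mem_clf.2 (hQ _ p.2.1).2)
  have h2 : PT p.1.1 p.1.2 ∈ clf KK (insert (PT p.1.1 p.1.2) (range y)) := subset_clf _ (mem_insert _ _)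
  have h3 := zeta_split (hQ _ p.2.1).1 p.1.2
  have h4 : PS p.1.1 p.1.2 = riemannZeta p.1.1 - PT p.1.1 p.1.2 := by rw [h3]; ring
  show PS p.1.1 p.1.2 ∈ _
  rw [h4]
  exact (clf KK _).sub_mem h1 h2

/-- the transcendence degree -/
theorem trdeg_zeta (X : Set ℂ) (hX : ∀ x ∈ X, IsAlgebraic ℚ x ∧ ∀ y ∈ X, x + y ≠ 0) {r : ℕ} (y : Fin r → ℂ) (Q : Set ℕ)
    (hQ : ∀ k ∈ Q, 2 ≤ k ∧ IsAlgebraic (IntermediateField.adjoin KK (range y)) (riemannZeta k))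
    (A : Finset (ℕ × ℂ)) (hA : ∀ p ∈ A, p.1 ∈ Q ∧ p.2 ∈ X) :
    (A.card : Cardinal) ≤ Algebra.trdeg KK (IntermediateField.adjoin KK
      (range y ∪ (fun p : ℕ × ℂ => PT p.1 p.2) '' (A : Set (ℕ × ℂ)))) := by
  let g : A → {p : ℕ × ℂ // 2 ≤ p.1 ∧ p.2 ∈ X} := fun p => ⟨p.1, (hQ _ (hA _ p.2).1).1, (hA _ p.2).2⟩
  have hg : Function.Injective g := by
    intro p q h
    exact Subtype.ext (congrArg (fun z => z.1) h)
  have h0 := trdeg_ge ((ai_PS X hX).comp g hg)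
    (A := range y ∪ (fun p : ℕ × ℂ => PT p.1 p.2) '' (A : Set (ℕ × ℂ))) fun p => by
      have h1 : riemannZeta p.1.1 ∈ clf KK (range y ∪ (fun p : ℕ × ℂ => PT p.1 p.2) '' (A : Set (ℕ × ℂ))) :=
        clf_mono subset_union_left (mem_clf.2 (hQ _ (hA _ p.2).1).2)
      have h2 : PT p.1.1 p.1.2 ∈ clf KK (range y ∪ (fun p : ℕ × ℂ => PT p.1 p.2) '' (A : Set (ℕ × ℂ))) :=
        subset_clf _ (Or.inr ⟨p.1, p.2, rfl⟩)
      have h3 := zeta_split (hQ _ (hA _ p.2).1).1 p.1.2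
      have h4 : PS p.1.1 p.1.2 = riemannZeta p.1.1 - PT p.1.1 p.1.2 := by rw [h3]; ring
      show PS p.1.1 p.1.2 ∈ _
      rw [h4]
      exact (clf KK _).sub_mem h1 h2
  rw [Fintype.card_coe] at h0
  exact h0

/-- if the zeta values are algebraic over the base field then the tails are independent -/
theorem ai_PT (X : Set ℂ) (hX : ∀ x ∈ X, IsAlgebraic ℚ x ∧ ∀ y ∈ X, x + y ≠ 0) (Q : Set ℕ)
    (hQ : ∀ k ∈ Q, 2 ≤ k ∧ IsAlgebraic KK (riemannZeta k)) :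
    AlgebraicIndependent KK (fun p : {p : ℕ × ℂ // p.1 ∈ Q ∧ p.2 ∈ X} => PT p.1.1 p.1.2) := by
  let g : {p : ℕ × ℂ // p.1 ∈ Q ∧ p.2 ∈ X} → {p : ℕ × ℂ // 2 ≤ p.1 ∧ p.2 ∈ X} := fun p => ⟨p.1, (hQ _ p.2.1).1, p.2.2⟩
  have hg : Function.Injective g := by
    intro p q h
    exact Subtype.ext (congrArg (fun z => z.1) h)
  refine ai_of_span ((ai_PS X hX).comp g hg) _ fun p => ?_
  have h1 : riemannZeta p.1.1 ∈ clf KK {PT p.1.1 p.1.2} := clf_of_alg (hQ _ p.2.1).2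
  have h2 : PT p.1.1 p.1.2 ∈ clf KK {PT p.1.1 p.1.2} := subset_clf _ rfl
  have h3 := zeta_split (hQ _ p.2.1).1 p.1.2
  have h4 : PS p.1.1 p.1.2 = riemannZeta p.1.1 - PT p.1.1 p.1.2 := by rw [h3]; ring
  show PS p.1.1 p.1.2 ∈ _
  rw [h4]
  exact (clf KK _).sub_mem h1 h2

end Pool.Agent.N902.EW
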