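import Pool.Agent.H18.L.N902.EW.Ind

/-!
# Linear independence of the functions `X^n exp (l X) U_w`: the theorem
-/

set_option autoImplicit false
set_option linter.unusedSectionVars false

open PowerSeries

namespace Pool.Agent.N902.EW

section

variable {K : Type*} [Field K] [CharZero K]

lemma dl_apply_ne {w v : List K} {c : EP K} (h : dl w c v ≠ 0) : ∃ a, w = a :: v := by
  classical
  cases w with
  | nil => exact absurd rfl h
  | cons a u =>
    refine ⟨a, ?_⟩
    rw [dl, Finsupp.single_apply] at h
    split_ifs at h with h1
    · rw [h1]
    · exact absurd rfl h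

lemma dl_cons_apply (a : K) (v : List K) (c : EP K) : dl (a :: v) c v = el a c := by
  rw [dl, Finsupp.single_eq_same]

lemma tW_top {ℓ : ℕ} {P : WE K} (hP : Good (ℓ + 1) P) (n : ℕ) (l : K) {w : List K} (hw : w.length = ℓ) :
    tW n l P w = tR n l (P w) := by
  rw [tW_apply, Finset.sum_eq_zero, add_zero]
  intro u hu
  by_contra h
  obtain ⟨a, rfl⟩ := dl_apply_ne h
  have := (hP _ (Finsupp.mem_support_iff.1 hu)).2
  simp only [List.length_cons] at this
  omega

lemma tW_good {ℓ : ℕ} {P : WE K} (hP : Good ℓ P) (n : ℕ) (l : K) : Good ℓ (tW n l P) := by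
  intro v hv
  rw [tW_apply] at hv
  by_cases h : P v = 0
  · rw [h, tR_zero, zero_add] at hv
    obtain ⟨u, hu, hne⟩ := Finset.exists_ne_zero_of_sum_ne_zero hv
    obtain ⟨a, rfl⟩ := dl_apply_ne hne
    have h2 := hP _ (Finsupp.mem_support_iff.1 hu)
    refine ⟨h2.1.tail, ?_⟩
    have := h2.2
    simp only [List.length_cons] at this
    omega
  · exact hP v h

lemma good_of_top {ℓ : ℕ} {P : WE K} (hP : Good (ℓ + 1) P) (h : ∀ w : List K, w.length = ℓ → P w = 0) : Good ℓ P := by
  intro w hw
  have h1 := hP w hw
  refine ⟨h1.1, ?_⟩
  have h2 : w.length ≠ ℓ := fun h3 => hw (h w h3)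
  omega

lemma el_single {a : K} (ha : a ≠ 0) (l : K) (p : Polynomial K) :
    el a (Finsupp.single l p) = Finsupp.single (l + a) p - Finsupp.single l p := by
  rw [el_ne ha, Finsupp.mapDomain_single]

/-- the step: if the top part is `κ X^d exp (l X)` and the operator kills everything then the top part is zero -/
lemma step {ℓ : ℕ} {P : WE K} (hP : Good (ℓ + 1) P) (h0 : Ph P = 0) (d : ℕ) (l : K) (hQ : tW d l P = 0)
    (κ : List K → K)
    (hκ : ∀ w : List K, w.length = ℓ → P w = Finsupp.single l (Polynomial.C (κ w) * Polynomial.X ^ d)) :
    ∀ w : List K, w.length = ℓ → P w = 0 := by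
  classical
  intro w hw
  rcases ℓ with _ | ℓ
  · -- the empty word
    have hw0 : w = [] := List.length_eq_zero_iff.1 hw
    subst hw0
    have h1 : P = Finsupp.single [] (P []) := by
      ext1 u
      rw [Finsupp.single_apply]
      split_ifs with hu
      · rw [hu]
      · by_contra h2
        have := (hP u h2).2
        exact hu (List.length_eq_zero_iff.1 (by omega : u.length = 0)).symm
    rw [h1, Ph_single, hκ [] rfl, psi_single, U_nil, mul_one] at h0
    have h2 := (mul_eq_zero.1 h0).resolve_left (ex_ne_zero l)
    have h3 : (Polynomial.C (κ []) * Polynomial.X ^ d : Polynomial K) = 0 := by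
      apply Polynomial.coe_injective K
      rw [h2, Polynomial.coe_zero]
    rw [hκ [] rfl, h3, Finsupp.single_zero]
  · have stepA : ∀ (a : K) (v : List K), v.length = ℓ → a ≠ 0 → P (a :: v) = 0 := by
      intro a v hv ha
      have h1 : tW d l P v (l + a) = 0 := by rw [hQ]; rfl
      rw [tW_apply, Finsupp.add_apply, Finsupp.finsetSum_apply, Finset.sum_eq_single (a :: v)] at h1
      · rw [dl_cons_apply, hκ (a :: v) (by rw [List.length_cons, hv]), el_single ha, tR_apply, Finsupp.sub_apply,
          Finsupp.single_eq_same, Finsupp.single_eq_of_ne (by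
            intro h2
            exact ha (by linear_combination h2)), sub_zero] at h1
        have h2 := polyA h1
        rw [hκ (a :: v) (by rw [List.length_cons, hv]), h2, Polynomial.C_0, zero_mul, Finsupp.single_zero]
      · intro u hu hne
        by_contra h2
        have h3 : dl u (P u) v ≠ 0 := by
          intro h4
          rw [h4] at h2
          exact h2 rfl
        obtain ⟨b, rfl⟩ := dl_apply_ne h3
        rw [dl_cons_apply, hκ (b :: v) (by rw [List.length_cons, hv])] at h2
        apply h2
        have hab : a ≠ b := fun h => hne (by rw [h])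
        by_cases hb : b = 0
        · rw [hb, el_zero_left, Finsupp.single_eq_of_ne]
          intro h4
          exact ha (by linear_combination h4)
        · rw [el_single hb, Finsupp.sub_apply, Finsupp.single_eq_of_ne, Finsupp.single_eq_of_ne, sub_zero]
          · intro h4
            exact ha (by linear_combination h4)
          · intro h4
            exact hab (by linear_combination h4)
      · intro h2
        rw [Finsupp.notMem_support_iff.1 h2, dl_zero]
        rfl
    rcases w with _ | ⟨a, v⟩
    · simp at hw
    · have hv : v.length = ℓ := by simpa using hw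
      by_cases ha : a = 0
      · subst ha
        have h1 : tW d l P v l = 0 := by rw [hQ]; rfl
        rw [tW_apply, Finsupp.add_apply, Finsupp.finsetSum_apply, Finset.sum_eq_single ((0 : K) :: v)] at h1
        · rw [dl_cons_apply, hκ (0 :: v) hw, el_zero_left, tR_apply, Finsupp.single_eq_same] at h1
          have h2 := polyA h1
          rw [hκ (0 :: v) hw, h2, Polynomial.C_0, zero_mul, Finsupp.single_zero]
        · intro u hu hne
          by_contra h2
          have h3 : dl u (P u) v ≠ 0 := by
            intro h4
            rw [h4] at h2
            exact h2 rfl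
          obtain ⟨b, rfl⟩ := dl_apply_ne h3
          have hb : b ≠ 0 := fun h => hne (by rw [h])
          rw [stepA b v hv hb, dl_zero] at h3
          exact h3 rfl
        · intro h2
          rw [Finsupp.notMem_support_iff.1 h2, dl_zero]
          rfl
      · exact stepA a v hv ha

theorem Ph_inj_aux : ∀ (ℓ : ℕ) (P : WE K), Good ℓ P → Ph P = 0 → P = 0 := by
  classical
  intro ℓ
  induction ℓ with
  | zero =>
    intro P hP _
    ext1 w
    by_contra h
    exact absurd (hP w h).2 (Nat.not_lt_zero _)
  | succ ℓ ih =>
    have top : ∀ (Z : Finset (List K × K)) (P : WE K), Good (ℓ + 1) P → Ph P = 0 →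
        (∀ (w : List K) (μ : K), w.length = ℓ → P w μ ≠ 0 → (w, μ) ∈ Z) → ∀ w : List K, w.length = ℓ → P w = 0 := by
      intro Z
      induction Z using Finset.induction_on with
      | empty =>
        intro P _ _ hZ w hw
        ext1 μ
        by_contra h
        exact absurd (hZ w μ hw h) (Finset.notMem_empty _)
      | insert x Z hx ihZ =>
        obtain ⟨w₀, l⟩ := x
        have inner : ∀ (d : ℕ) (P : WE K), Good (ℓ + 1) P → Ph P = 0 →
            (∀ (w : List K) (μ : K), w.length = ℓ → P w μ ≠ 0 → (w, μ) ∈ insert (w₀, l) Z) →
            (∀ k, d ≤ k → (P w₀ l).coeff k = 0) → ∀ w : List K, w.length = ℓ → P w = 0 := by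
          intro d
          induction d with
          | zero =>
            intro P hP h0 hZ hd
            refine ihZ P hP h0 fun w μ hw hne => ?_
            rcases Finset.mem_insert.1 (hZ w μ hw hne) with h | h
            · rw [Prod.mk.injEq] at h
              obtain ⟨rfl, rfl⟩ := h
              exact absurd (Polynomial.ext fun k => by rw [hd k (Nat.zero_le _), Polynomial.coeff_zero]) hne
            · exact h
          | succ d ihd =>
            intro P hP h0 hZ hd
            by_cases hw₀ : w₀.length = ℓ
            · have hQg := tW_good hP d l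
              have hQ0 : Ph (tW d l P) = 0 := by
                rw [Ph_tW d l P fun w h => (hP w h).1, h0, tS_zero]
              have hQtop := ihd (tW d l P) hQg hQ0
                (fun w μ hw hne => hZ w μ hw fun h => hne (by rw [tW_top hP d l hw, tR_apply, h, tp_zero]))
                (fun k hk => by
                  rw [tW_top hP d l hw₀, tR_apply, sub_self]
                  rcases k with _ | k
                  · rw [coeff_tp_zero, (by omega : d = 0)]; simp
                  · rw [coeff_tp_succ, zero_mul, add_zero]
                    by_cases hkd : k + 1 = d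
                    · rw [← hkd]; push_cast; ring
                    · rw [hd (k + 1) (by omega), mul_zero])
              have hQ : tW d l P = 0 := ih _ (good_of_top hQg hQtop) hQ0
              refine step hP h0 d l hQ (fun w => (P w l).coeff d) fun w hw => ?_
              apply tR_eq_zero
              rw [← tW_top hP d l hw]
              exact hQtop w hw
            · refine ihZ P hP h0 fun w μ hw hne => ?_
              rcases Finset.mem_insert.1 (hZ w μ hw hne) with h | h
              · rw [Prod.mk.injEq] at h
                exact absurd (h.1 ▸ hw) hw₀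
              · exact h
        intro P hP h0 hZ
        exact inner ((P w₀ l).natDegree + 1) P hP h0 hZ fun k hk =>
          Polynomial.coeff_eq_zero_of_natDegree_lt (by omega)
    intro P hP h0
    refine ih P (good_of_top hP ?_) h0
    refine top (P.support.biUnion fun w => (P w).support.image fun μ => (w, μ)) P hP h0 fun w μ _ hne => ?_
    rw [Finset.mem_biUnion]
    refine ⟨w, ?_, Finset.mem_image.2 ⟨μ, Finsupp.mem_support_iff.2 hne, rfl⟩⟩
    rw [Finsupp.mem_support_iff]
    intro h
    rw [h] at hne
    exact hne rfl

/-- the functions `U_w` of the admissible words are linearly independent over the exponential polynomials -/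
theorem Ph_inj {P : WE K} (hP : ∀ w, P w ≠ 0 → Adm w) (h0 : Ph P = 0) : P = 0 := by
  classical
  refine Ph_inj_aux ((P.support.sup List.length) + 1) P (fun w hw => ⟨hP w hw, ?_⟩) h0
  exact Nat.lt_succ_of_le (Finset.le_sup (f := List.length) (Finsupp.mem_support_iff.2 hw))

end

end Pool.Agent.N902.EW
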