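import Pool.Agent.H18.L.N902.EW.Der2
import Pool.Agent.H18.L.N902.EW.Qb

/-!
# Algebraic independence of the values `S_k(x)` over the field of the words without opposite letters
-/

set_option autoImplicit false
set_option linter.unusedSectionVars false

open PowerSeries

namespace Pool.Agent.N902.EW

/-- the generators of the base field: the algebraic numbers, the exponentials of algebraic numbers, the values of
the words without opposite letters -/
def GG : Set ℂ := {z | IsAlgebraic ℚ z} ∪ {z | ∃ b : Qb, z = evk io (ex b)} ∪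
  {z | ∃ w : List Qb, Adm w ∧ NoOpp w ∧ z = evk io (U w)}

lemma adm_nil {K : Type*} [Field K] : Adm ([] : List K) := trivial

instance charZeroAA {K : Type*} [Field K] [CharZero K] : CharZero (AA K) :=
  charZero_of_injective_algebraMap (algebraMap K (AA K)).injective

lemma evA_apply (f : AA Qb) : evA io f = evk io f.1 := rfl

lemma evA_mk (l : Qb) (w : List Qb) (h : Adm w) : evA io (mk l w h) = evk io (ex l) * evk io (U w) := by
  rw [evA_apply, mk, evk_mul (EFK.ex l) (EFK.U w)]

lemma evk_ex_zero : evk io (ex (0 : Qb)) = 1 := by rw [ex_zero, evk_one]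

lemma evA_algebraMap (c : Qb) : evA io (algebraMap Qb (AA Qb) c) = io c := by
  rw [Algebra.algebraMap_eq_smul_one]
  show evk io (c • (1 : AA Qb)).1 = io c
  have : (c • (1 : AA Qb)).1 = c • (1 : (Qb : Type)⟦X⟧) := rfl
  rw [this, evk_smul, evk_one, mul_one]

/-- every element of the base ring is a value of an element which is killed by the derivations -/
lemma exists_killed {z : ℂ} (hz : z ∈ Algebra.adjoin ℚ GG) :
    ∃ f : AA Qb, evA io f = z ∧ ∀ (x : Qb), x ≠ 0 → ∀ n, Dk x n f = 0 := by
  induction hz using Algebra.adjoin_induction with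
  | mem z hz =>
    rcases hz with (hz | ⟨b, rfl⟩) | ⟨w, hw, hno, rfl⟩
    · refine ⟨algebraMap Qb (AA Qb) ⟨z, mem_algebraicClosure_iff'.2 hz.isIntegral⟩, evA_algebraMap _, fun x _ n => ?_⟩
      exact Derivation.map_algebraMap _ _
    · refine ⟨mk b [] adm_nil, ?_, fun x hx n => Dk_kill hx n b _ (fun a ha => absurd ha (by simp))⟩
      rw [evA_mk, U_nil, evk_one, mul_one]
    · refine ⟨mk 0 w hw, ?_, fun x hx n => Dk_kill hx n 0 _ hno⟩
      rw [evA_mk, evk_ex_zero, one_mul]
  | algebraMap r =>
    refine ⟨algebraMap Qb (AA Qb) (algebraMap ℚ Qb r), ?_, fun x _ n => Derivation.map_algebraMap _ _⟩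
    rw [evA_algebraMap]
    simp
  | add x y _ _ hx hy =>
    obtain ⟨f, hf, hf'⟩ := hx
    obtain ⟨g, hg, hg'⟩ := hy
    exact ⟨f + g, by rw [map_add, hf, hg], fun x hx n => by rw [map_add, hf' x hx n, hg' x hx n, add_zero]⟩
  | mul x y _ _ hx hy =>
    obtain ⟨f, hf, hf'⟩ := hx
    obtain ⟨g, hg, hg'⟩ := hy
    exact ⟨f * g, by rw [map_mul, hf, hg], fun x hx n => by
      rw [Derivation.leibniz, hf' x hx n, hg' x hx n, smul_zero, smul_zero, add_zero]⟩

/-- the index set: pairs of an element of a set without opposite elements and a natural number -/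
theorem ai_values (X : Set Qb) (hX : ∀ x ∈ X, ∀ y ∈ X, x + y ≠ 0) (hX0 : ∀ x : X, x.1 ≠ 0) :
    AlgebraicIndependent (IntermediateField.adjoin ℚ GG) (fun p : X × ℕ => evA io (sk p.1.1 (hX0 p.1) p.2)) := by
  classical
  rw [IntermediateField.algebraicIndependent_adjoin_iff]
  let R' : Subalgebra ℚ ℂ := Algebra.adjoin ℚ GG
  let R : Subring (AA Qb) := R'.toSubring.comap (evA io)
  have hinj := evA_injective io
  -- the derivations kill the ring
  have hkill : ∀ (b : R) (x : Qb), x ≠ 0 → ∀ n, Dk x n b.1 = 0 := by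
    intro b x hx n
    obtain ⟨f, hf, hf'⟩ := exists_killed (z := evA io b.1) b.2
    rw [← hinj hf]
    exact hf' x hx n
  have hAI : AlgebraicIndependent R (fun p : X × ℕ => sk p.1.1 (hX0 p.1) p.2) := by
    refine ai_of_der (k := Qb) Subtype.val_injective _ (fun p => Dk p.1.1 p.2) (fun p b => hkill b _ (hX0 p.1) _)
      (fun p => ((-1) ^ p.2 : Qb) • mk 0 [] adm_nil) (fun p h => ?_) (fun p => ?_) (fun p r hpr => ?_)
    · have h1 : ((-1) ^ p.2 : Qb) ≠ 0 := pow_ne_zero _ (by norm_num)
      rcases smul_eq_zero.1 h with h2 | h2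
      · exact h1 h2
      · have h3 := congrArg (evA io) h2
        rw [evA_mk, evk_ex_zero, U_nil, evk_one, map_zero, mul_one] at h3
        exact one_ne_zero h3
    · rw [Dk_sk (hX0 p.1) _ _ adm_nil, if_pos rfl]
    · by_cases h1 : p.1.1 = r.1.1
      · have h2 : r.2 ≠ p.2 := fun h => hpr (Prod.ext (Subtype.ext h1) h.symm)
        have h3 : sk r.1.1 (hX0 r.1) r.2 = sk p.1.1 (hX0 p.1) r.2 := by
          congr 1
          exact h1.symm
        rw [h3, Dk_sk (hX0 p.1) _ _ adm_nil, if_neg h2]
      · exact Dk_sk_ne (hX0 p.1) (hX0 r.1) h1 (hX _ p.1.2 _ r.1.2) _ _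
  -- the homomorphism of the base rings
  let f : R →+* R' := ((evA io).comp R.subtype).codRestrict R'.toSubring (fun b => b.2)
  have hf : Function.Surjective f := by
    rintro ⟨z, hz⟩
    obtain ⟨g, hg, -⟩ := exists_killed hz
    refine ⟨⟨g, ?_⟩, Subtype.ext hg⟩
    show evA io g ∈ R'
    rw [hg]; exact hz
  exact hAI.ringHom_of_comp_eq f (evA io) hf hinj (RingHom.ext fun b => rfl)

end Pool.Agent.N902.EW
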